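import Pool.Agent.Helper5.TS.Gain
import Pool.Agent.Helper8.TS.HighPair
import Pool.Agent.Helper84.TS.Cases

/-!
# The gains of the far cells of one class, with chains

`GainsC` is `Gains` of `Helper5` with the condition `three` replaced by the chains: if the cell of the
column `z` supports the cells of the columns `y` and `x`, then one of these supports the other. The
high main cell is treated by `Helper8.TS.gains_pair` (with the bound `B` for one pair of columns).
-/

set_option autoImplicit false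

namespace Pool.Agent.Helper32.TS

open Pool.Agent.Helper84.TS Pool.Agent.Helper36.TS Pool.Agent.Helper44.TS Pool.Agent.Helper5.TS
  Pool.Agent.Helper8.TS

variable {A : Fin 4 → Fin 4 → Option (Fin 4 → ℝ)}

/-- the bounds of the gains, with chains -/
structure GainsC (A : Fin 4 → Fin 4 → Option (Fin 4 → ℝ)) (a : Fin 4) (Γ : Fin 4 → ℝ)
    (φ : Fin 4 → ℝ → ℝ) (B : Fin 4 → Fin 4 → ℝ → ℝ → ℝ) (g τ : ℝ) : Prop where
  tau : 0 ≤ τ
  gnn : 0 ≤ g
  mono : ∀ z, z ≠ a → ∀ s t : ℝ, 0 ≤ s → s ≤ t → t ≤ 1 → φ z s ≤ φ z t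
  bmono : ∀ z y, z ≠ a → y ≠ a → z ≠ y → ∀ s t c : ℝ, 0 ≤ s → s ≤ t → t ≤ 1 → 0 ≤ c → c ≤ 1 →
    B z y s c ≤ B z y t c
  /-- no cell, no gain -/
  none : ∀ z, z ≠ a → A a z = none → Γ z ≤ 0
  one : ∀ z F, z ≠ a → A a z = some F → Γ z ≤ φ z (2 + F z)
  top : ∀ z F, z ≠ a → A a z = some F → Γ z ≤ g
  two : ∀ z y F, z ≠ a → y ≠ a → z ≠ y → A a z = some F → 0 ≤ F y + (F a - 1) →
    Γ z + φ y (F y + (F a - 1)) ≤ g
  /-- the cell of `z` supports `y` and `x`, the cell of `y` supports `x` -/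
  chain : ∀ z y x F, [a, z, y, x].Nodup → A a z = some F → 0 ≤ F y + (F a - 1) →
    ∀ t : ℝ, 0 ≤ t → t ≤ F x + (F a - 1) →
    Γ z + B y x (F y + (F a - 1)) t + φ x t ≤ g + τ
  cap : ∀ z y F c, z ≠ a → y ≠ a → z ≠ y → A a z = some F → 0 ≤ c → c ≤ F y + (F a - 1) →
    Γ z ≤ B z y (2 + F z) c
  cyc : ∀ z y x, [a, z, y, x].Nodup → ∀ p q r : ℝ, 0 ≤ p → p ≤ 1 → 0 ≤ q → q ≤ 1 → 0 ≤ r →
    r ≤ 1 → B z y p q + B y x q r + B x z r p ≤ g + τ

section

variable {a : Fin 4} {Γ : Fin 4 → ℝ} {φ : Fin 4 → ℝ → ℝ} {B : Fin 4 → Fin 4 → ℝ → ℝ → ℝ} {g τ : ℝ}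

/-- a supported cell -/
theorem two_cellsC (h : OF A) (G : GainsC A a Γ φ B g τ) {z y : Fin 4} {F H : Fin 4 → ℝ}
    (hz : z ≠ a) (hy : y ≠ a) (hzy : z ≠ y) (hF : A a z = some F) (hH : A a y = some H)
    (hs : 2 + H y ≤ F y + (F a - 1)) : Γ z + Γ y ≤ g := by
  have w := far_w h hH hy
  have e1 := G.one y H hy hH
  have e2 := G.mono y hy _ _ w.1 hs (far_sup_le h hF hz hy hzy)
  have e3 := G.two z y F hz hy hzy hF (by linarith)
  linarith

/-- two cells -/
theorem pair_gainC (h : OF A) (G : GainsC A a Γ φ B g τ) {z y : Fin 4}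
    (hz : z ≠ a) (hy : y ≠ a) (hzy : z ≠ y) : Γ z + Γ y ≤ g := by
  rcases hF : A a z with _ | F
  · have e1 := G.none z hz hF
    rcases hH : A a y with _ | H
    · have e2 := G.none y hy hH
      linarith [G.gnn]
    · have e2 := G.top y H hy hH
      linarith
  · rcases hH : A a y with _ | H
    · have e2 := G.none y hy hH
      have e1 := G.top z F hz hF
      linarith
    · rcases support h hF hH hz hy hzy with hs | hs
      · exact two_cellsC h G hz hy hzy hF hH hs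
      · have := two_cellsC h G hy hz hzy.symm hH hF hs
        linarith

/-- a chain -/
theorem chain_gain (h : OF A) (G : GainsC A a Γ φ B g τ) {z y x : Fin 4} {F H K : Fin 4 → ℝ}
    (hn : [a, z, y, x].Nodup) (hF : A a z = some F) (hH : A a y = some H) (hK : A a x = some K)
    (s1 : 2 + H y ≤ F y + (F a - 1)) (s2 : 2 + K x ≤ F x + (F a - 1))
    (s3 : 2 + K x ≤ H x + (H a - 1)) : Γ z + Γ y + Γ x ≤ g + τ := by
  have ne := nodup_ne hn
  have hzy : z ≠ y := nodup_jk hn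
  have hzx : z ≠ x := nodup_jl hn
  have hyx : y ≠ x := by
    clear * - hn; revert hn; revert a z y x; decide
  have wH := far_w h hH ne.2.1
  have wK := far_w h hK ne.2.2
  have e1 := G.cap y x H (2 + K x) ne.2.1 ne.2.2 hyx hH wK.1 s3
  have e2 := G.bmono y x ne.2.1 ne.2.2 hyx _ _ (2 + K x) wH.1 s1
    (far_sup_le h hF ne.1 ne.2.1 hzy) wK.1 wK.2
  have e3 := G.one x K ne.2.2 hK
  have e4 := G.chain z y x F hn hF (by linarith) (2 + K x) wK.1 s2
  linarith

/-- a cell that supports the two others -/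
theorem sourceC (h : OF A) (G : GainsC A a Γ φ B g τ) {z y x : Fin 4} {F H K : Fin 4 → ℝ}
    (hn : [a, z, y, x].Nodup) (hF : A a z = some F) (hH : A a y = some H) (hK : A a x = some K)
    (s1 : 2 + H y ≤ F y + (F a - 1)) (s2 : 2 + K x ≤ F x + (F a - 1)) :
    Γ z + Γ y + Γ x ≤ g + τ := by
  have ne := nodup_ne hn
  have hyx : y ≠ x := by
    clear * - hn; revert hn; revert a z y x; decide
  rcases support h hH hK ne.2.1 ne.2.2 hyx with s3 | s3
  · exact chain_gain h G hn hF hH hK s1 s2 s3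
  · have := chain_gain h G (perm_kl hn) hF hK hH s2 s1 s3
    linarith

/-- three cells in cyclic order -/
theorem cyclicC (h : OF A) (G : GainsC A a Γ φ B g τ) {z y x : Fin 4} {F H K : Fin 4 → ℝ}
    (hn : [a, z, y, x].Nodup) (hF : A a z = some F) (hH : A a y = some H) (hK : A a x = some K)
    (s1 : 2 + H y ≤ F y + (F a - 1)) (s2 : 2 + K x ≤ H x + (H a - 1))
    (s3 : 2 + F z ≤ K z + (K a - 1)) : Γ z + Γ y + Γ x ≤ g + τ := by
  have ne := nodup_ne hn
  have hzy : z ≠ y := nodup_jk hn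
  have hzx : z ≠ x := nodup_jl hn
  have hyx : y ≠ x := by
    clear * - hn; revert hn; revert a z y x; decide
  have wF := far_w h hF ne.1
  have wH := far_w h hH ne.2.1
  have wK := far_w h hK ne.2.2
  have e1 := G.cap z y F (2 + H y) ne.1 ne.2.1 hzy hF wH.1 s1
  have e2 := G.cap y x H (2 + K x) ne.2.1 ne.2.2 hyx hH wK.1 s2
  have e3 := G.cap x z K (2 + F z) ne.2.2 ne.1 hzx.symm hK wF.1 s3
  have e4 := G.cyc z y x hn (2 + F z) (2 + H y) (2 + K x) wF.1 wF.2 wH.1 wH.2 wK.1 wK.2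
  linarith

/-- **The gains of all the far cells of one class.** -/
theorem gainsC_le (h : OF A) (G : GainsC A a Γ φ B g τ) {z y x : Fin 4}
    (hn : [a, z, y, x].Nodup) : Γ z + Γ y + Γ x ≤ g + τ := by
  have ne := nodup_ne hn
  have hzy : z ≠ y := nodup_jk hn
  have hzx : z ≠ x := nodup_jl hn
  have hyx : y ≠ x := by
    clear * - hn; revert hn; revert a z y x; decide
  have p1 := pair_gainC h G ne.1 ne.2.1 hzy
  have p2 := pair_gainC h G ne.1 ne.2.2 hzx
  have p3 := pair_gainC h G ne.2.1 ne.2.2 hyx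
  rcases hF : A a z with _ | F
  · have e1 := G.none z ne.1 hF
    linarith [G.tau]
  rcases hH : A a y with _ | H
  · have e1 := G.none y ne.2.1 hH
    linarith [G.tau]
  rcases hK : A a x with _ | K
  · have e1 := G.none x ne.2.2 hK
    linarith [G.tau]
  have n1 : [a, z, x, y].Nodup := perm_kl hn
  have n2 : [a, y, z, x].Nodup := perm_jk hn
  have n5 : [a, x, z, y].Nodup := perm_jl hn
  rcases support h hF hH ne.1 ne.2.1 hzy with s1 | s1 <;>
    rcases support h hF hK ne.1 ne.2.2 hzx with s2 | s2 <;>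
    rcases support h hH hK ne.2.1 ne.2.2 hyx with s3 | s3
  · exact sourceC h G hn hF hH hK s1 s2
  · exact sourceC h G hn hF hH hK s1 s2
  · exact cyclicC h G hn hF hH hK s1 s3 s2
  · have := sourceC h G n5 hK hF hH s2 s3
    linarith
  · have := sourceC h G n2 hH hF hK s1 s3
    linarith
  · have := cyclicC h G n1 hF hK hH s2 s3 s1
    linarith
  · have := sourceC h G n2 hH hF hK s1 s3
    linarith
  · have := sourceC h G n5 hK hF hH s2 s3
    linarith

/-- the width of a far cell is positive and at most the support of the main cell -/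
theorem far_key (h : OF A) {m : Fin 4} {F M : Fin 4 → ℝ} (hm : m ≠ a) (hM : A a a = some M)
    (hF : A a m = some F) : 0 < 2 + F m ∧ 2 + F m ≤ 1 ∧ 2 + F m ≤ M m + (M a - 1) := by
  have w := far_w h hF hm
  refine ⟨?_, w.2, ?_⟩
  · obtain ⟨k, l, hn'⟩ := exists_rest2 hm.symm
    have := cell_lin (h.cell a m F hF) hn'
    linarith
  · have := own' (h.cell a a M hM) (h.cell a m F hF) (sep' h hm.symm hM hF) hm
      (h.main a M hM) (h.far a m F hm hF)
    linarith

/-- **A class without main cell or with a high one**, `z`, `y` the chosen pair of columns. -/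
theorem gainsC_high (h : OF A) (G : GainsC A a Γ φ B g τ) {z y x : Fin 4}
    (H : HiP φ B a z y x (g + τ)) (hn : [a, z, y, x].Nodup) (ha : R2 A a) :
    fo a (A a a) + Γ z + Γ y + Γ x ≤ g + τ := by
  have ne := nodup_ne hn
  have hzy : z ≠ y := nodup_jk hn
  rcases ha with ha | ⟨M, hM, hd⟩
  · have := gainsC_le h G hn
    rw [ha]
    simp only [fo]
    linarith
  have one : ∀ m, m ≠ a → Γ m ≤ 0 ∨ ∃ w, 0 ≤ w ∧ w ≤ M m + (M a - 1) ∧ Γ m ≤ φ m w := by
    intro m hm
    rcases hF : A a m with _ | F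
    · exact Or.inl (G.none m hm hF)
    · have k := far_key h hm hM hF
      exact Or.inr ⟨_, k.1.le, k.2.2, G.one m F hm hF⟩
  have pair : Γ z ≤ 0 ∨ Γ y ≤ 0 ∨ ∃ w v, 0 ≤ w ∧ 0 ≤ v ∧ w ≤ M z + (M a - 1) ∧
      v ≤ M y + (M a - 1) ∧
      ((Γ z ≤ B z y w v ∧ Γ y ≤ φ y v) ∨ (Γ y ≤ B y z v w ∧ Γ z ≤ φ z w)) := by
    rcases hF : A a z with _ | F
    · exact Or.inl (G.none z ne.1 hF)
    rcases hN : A a y with _ | N
    · exact Or.inr (Or.inl (G.none y ne.2.1 hN))
    have k1 := far_key h ne.1 hM hF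
    have k2 := far_key h ne.2.1 hM hN
    refine Or.inr (Or.inr ⟨2 + F z, 2 + N y, k1.1.le, k2.1.le, k1.2.2, k2.2.2, ?_⟩)
    rcases support h hF hN ne.1 ne.2.1 hzy with s1 | s1
    · exact Or.inl ⟨G.cap z y F (2 + N y) ne.1 ne.2.1 hzy hF k2.1.le s1, G.one y N ne.2.1 hN⟩
    · exact Or.inr ⟨G.cap y z N (2 + F z) ne.2.1 ne.1 hzy.symm hN k1.1.le s1, G.one z F ne.1 hF⟩
  have := gains_pair H (h.cell a a M hM) hn (h.main a M hM) hd (one z ne.1) (one y ne.2.1)
    (one x ne.2.2) pair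
  rw [hM]
  simp only [fo]
  linarith

end

end Pool.Agent.Helper32.TS
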