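import Pool.Agent.Helper32.TS.Yw

/-!
# `OL2Brp`: the numbers of a cell with the positive parts
-/

set_option autoImplicit false

namespace Pool.Agent.Helper32.TS

/-- the numbers of a far cell with its positive parts `p = (w - A)⁺`, `q = (w - B)⁺` -/
structure CP (w A B p q : ℝ) : Prop where
  hw : 0 ≤ w
  hA : 0 ≤ A
  hB : 0 ≤ B
  h1 : w ≤ 1
  ht : A + B - w ≤ 1
  hu : 9 / 20 ≤ A + B - w
  hp : 0 ≤ p
  hq : 0 ≤ q
  ha : w - A ≤ p
  hb : w - B ≤ q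
  hc : p * (p - w + A) ≤ 0
  hd : q * (q - w + B) ≤ 0
  he : p ≤ B
  hf : q ≤ A
  p0 : w ≤ A → p = 0
  p1 : A ≤ w → p = w - A
  q0 : w ≤ B → q = 0
  q1 : B ≤ w → q = w - B

/-- the value of a far cell -/
noncomputable def fv (w A B p q : ℝ) : ℝ := w * A * B - w ^ 3 / 3 + p ^ 3 / 3 + q ^ 3 / 3

end Pool.Agent.Helper32.TS
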