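import Pool.Agent.Helper74.TS.Far

/-!
# `OL2Brs`: bounds for the third cell of the low class

`(z, G, H)`: the third cell, with `G = 1 - (support in the column s)`, `H = 1 - (support in the
column r)`.
-/

set_option autoImplicit false

namespace Pool.Agent.Helper32.TS

open Pool.Agent.Helper74.TS

/-- the numbers of a far cell -/
structure Cell3 (w A B : ℝ) : Prop where
  w0 : 0 ≤ w
  w1 : w ≤ 1
  A0 : 0 ≤ A
  B0 : 0 ≤ B
  lo : w ≤ A + B
  hi : A + B ≤ 1 + w

private theorem env32 {z y v : ℝ} (z0 : 0 ≤ z) (y0 : 0 ≤ y) (h : y ≤ v) (hz : z ≤ y + v) :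
    vl z y v ≤ y * (y + v) ^ 2 / 4 - y ^ 3 / 3 := by
  unfold vl
  rcases le_total z y with h1 | h1
  · rw [max_eq_right (by linarith : z - y ≤ 0), max_eq_right (by linarith : z - v ≤ 0)]
    have e1 : 0 ≤ (y - z) * (y * v - (y ^ 2 + y * z + z ^ 2) / 3) := by
      refine mul_nonneg (by linarith) ?_
      nlinarith
    have e2 : 0 ≤ y * (v - y) ^ 2 := by positivity
    nlinarith
  · rw [max_eq_left (by linarith : 0 ≤ z - y)]
    rcases le_total z v with h2 | h2
    · rw [max_eq_right (by linarith : z - v ≤ 0)]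
      have e2 : 0 ≤ y * (y + v - 2 * z) ^ 2 := by positivity
      nlinarith
    · rw [max_eq_left (by linarith : 0 ≤ z - v)]
      have e2 : 0 ≤ y * (y + v - 2 * z) ^ 2 := by positivity
      obtain ⟨s, hs⟩ : ∃ s, s = z - v := ⟨_, rfl⟩
      have s0 : 0 ≤ s := by linarith
      have s1 : s ≤ y := by linarith
      have e3 : 0 ≤ s ^ 2 * (y - s) := by
        refine mul_nonneg (by positivity) (by linarith)
      have e4 : 0 ≤ y * ((v - y) * s) := mul_nonneg y0 (mul_nonneg (by linarith) s0)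
      have e5 : 0 ≤ y * (v - y) ^ 2 := by positivity
      have e6 : 0 ≤ y * s ^ 2 := by positivity
      have ez : z = v + s := by linarith
      rw [ez]
      have e7 : v + s - v = s := by ring
      rw [e7]
      nlinarith

/-- the cell supports the two others -/
theorem vl_two {z G H y v : ℝ} (c : Cell3 z G H) (hG : G ≤ y) (hH : H ≤ v) :
    (y ≤ v → vl z G H ≤ y * (y + v) ^ 2 / 4 - y ^ 3 / 3) ∧
      (v ≤ y → vl z G H ≤ v * (v + y) ^ 2 / 4 - v ^ 3 / 3) := by
  have y0 := c.A0.trans hG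
  have v0 := c.B0.trans hH
  have e1 : vl z G H ≤ vl z y v :=
    (vl_mono_l c.w0 c.A0 c.B0 c.lo hG).trans
      (vl_mono_r c.w0 y0 c.B0 (by linarith [c.lo]) hH)
  refine ⟨fun h => e1.trans (env32 c.w0 y0 h (by linarith [c.lo])), fun h => ?_⟩
  rw [vl_comm] at e1
  rw [vl_comm z y v] at e1
  rw [vl_comm z H G] at e1
  exact e1.trans (env32 c.w0 v0 h (by linarith [c.lo]))

/-- the largest second variable -/
private theorem top32 {z G H : ℝ} (c : Cell3 z G H) (G1 : G ≤ 1) :
    (z ≤ G → vl z G H ≤ z * G * (1 + z - G) - z ^ 3 / 3) ∧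
      (G ≤ z → vl z G H ≤ z * G - G ^ 3 / 3) := by
  have e1 : vl z G H ≤ vl z G (1 + z - G) :=
    vl_mono_r c.w0 c.A0 c.B0 c.lo (by linarith [c.hi])
  refine ⟨fun h => e1.trans ?_, fun h => e1.trans ?_⟩
  · unfold vl
    rw [max_eq_right (by linarith : z - G ≤ 0), max_eq_right (by linarith : z - (1 + z - G) ≤ 0)]
    linarith
  · unfold vl
    rw [max_eq_left (by linarith : 0 ≤ z - G), max_eq_right (by linarith : z - (1 + z - G) ≤ 0)]
    nlinarith

/-- the cell supports the cell of `s` and is supported by the cell of `r` -/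
theorem vl_one {z G H y u : ℝ} (c : Cell3 z G H) (hG : G ≤ y) (y1 : y ≤ 1) (hz : z ≤ u)
    (u1 : u ≤ 1) :
    (y ≤ u → vl z G H ≤ u * y - y ^ 3 / 3) ∧
      (u ≤ y → 2 * y ≤ 1 + u → vl z G H ≤ u * y * (1 + u - y) - u ^ 3 / 3) ∧
      (u ≤ y → vl z G H ≤ u * (1 + u) ^ 2 / 4 - u ^ 3 / 3) := by
  have G0 := c.A0
  have z0 := c.w0
  have G1 : G ≤ 1 := hG.trans y1
  have u0 : 0 ≤ u := z0.trans hz
  obtain ⟨t1, t2⟩ := top32 c G1
  -- in terms of `max z G`
  have key : G ≤ u → vl z G H ≤ u * G - G ^ 3 / 3 := by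
    intro h
    rcases le_total z G with h1 | h1
    · have a1 := t1 h1
      have a2 : 0 ≤ (G - z) * (G * (1 - G) + G * (G + z) - (G ^ 2 + G * z + z ^ 2) / 3) := by
        refine mul_nonneg (by linarith) ?_
        nlinarith [mul_nonneg G0 (by linarith : 0 ≤ 1 - G), mul_nonneg G0 z0,
          mul_nonneg G0 (by linarith : 0 ≤ G - z), mul_nonneg z0 (by linarith : 0 ≤ G - z)]
      have a3 : G * G ≤ u * G := mul_le_mul_of_nonneg_right h G0
      nlinarith
    · have a1 := t2 h1
      have a3 : z * G ≤ u * G := mul_le_mul_of_nonneg_right hz G0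
      linarith
  have key2 : u ≤ G → vl z G H ≤ u * G * (1 + u - G) - u ^ 3 / 3 := by
    intro h
    have h1 : z ≤ G := hz.trans h
    have a1 := t1 h1
    have a2 : 0 ≤ (u - z) * (G * (1 - G) + G * (u + z) - (u ^ 2 + u * z + z ^ 2) / 3) := by
      refine mul_nonneg (by linarith) ?_
      nlinarith [mul_nonneg G0 (by linarith : 0 ≤ 1 - G), mul_nonneg G0 z0,
        mul_nonneg u0 (by linarith : 0 ≤ G - u), mul_nonneg z0 (by linarith : 0 ≤ G - z),
        mul_nonneg u0 (by linarith : 0 ≤ u - z), mul_nonneg z0 u0]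
    nlinarith
  have low : ∀ m, G ≤ m → m ≤ u → m ≤ 1 → vl z G H ≤ u * m - m ^ 3 / 3 := by
    intro m h1 h2 h3
    have a1 := key (h1.trans h2)
    have a2 : 0 ≤ (m - G) * (u - (m ^ 2 + m * G + G ^ 2) / 3) := by
      refine mul_nonneg (by linarith) ?_
      nlinarith [mul_nonneg (G0.trans h1) (by linarith : 0 ≤ 1 - m),
        mul_nonneg G0 (by linarith : 0 ≤ m - G), mul_nonneg (G0.trans h1) (by linarith : 0 ≤ m - G)]
    nlinarith
  have mid : u ≤ y → 2 * y ≤ 1 + u → vl z G H ≤ u * y * (1 + u - y) - u ^ 3 / 3 := by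
    intro h1 h2
    rcases le_total G u with h | h
    · have a1 := low u h le_rfl u1
      have a2 : 0 ≤ u * ((y - u) * (1 - y)) :=
        mul_nonneg u0 (mul_nonneg (by linarith) (by linarith))
      nlinarith
    · have a1 := key2 h
      have a2 : 0 ≤ u * ((y - G) * (1 + u - y - G)) :=
        mul_nonneg u0 (mul_nonneg (by linarith) (by linarith))
      nlinarith
  refine ⟨fun h => low y hG h y1, mid, fun h => ?_⟩
  rcases le_total G u with h' | h'
  · have a1 := low u h' le_rfl u1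
    have a2 : 0 ≤ u * (1 - u) ^ 2 := by positivity
    nlinarith
  · have a1 := key2 h'
    have a2 : 0 ≤ u * (1 + u - 2 * G) ^ 2 := by positivity
    nlinarith

/-- any cell -/
theorem vl_any {z G H : ℝ} (c : Cell3 z G H) :
    vl z G H ≤ z * (1 + z) ^ 2 / 4 - z ^ 3 / 3 := by
  have key : ∀ {G H : ℝ}, Cell3 z G H → G ≤ 1 → vl z G H ≤ z * (1 + z) ^ 2 / 4 - z ^ 3 / 3 := by
    intro G H c G1
    obtain ⟨t1, t2⟩ := top32 c G1
    have z0 := c.w0
    have G0 := c.A0
    rcases le_total z G with h1 | h1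
    · have a1 := t1 h1
      have a2 : 0 ≤ z * (1 + z - 2 * G) ^ 2 := by positivity
      nlinarith
    · have a1 := t2 h1
      have a2 : 0 ≤ (z - G) * (z - (z ^ 2 + z * G + G ^ 2) / 3) := by
        refine mul_nonneg (by linarith) ?_
        nlinarith [mul_nonneg z0 (by linarith [c.w1] : 0 ≤ 1 - z),
          mul_nonneg G0 (by linarith : 0 ≤ z - G), mul_nonneg z0 (by linarith : 0 ≤ z - G)]
      have a3 : 0 ≤ z * (1 - z) ^ 2 := by positivity
      nlinarith
  rcases le_total G 1 with h | h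
  · exact key c h
  · rw [vl_comm]
    exact key ⟨c.w0, c.w1, c.B0, c.A0, by linarith [c.lo], by linarith [c.hi]⟩
      (by linarith [c.hi, c.w1])

end Pool.Agent.Helper32.TS
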