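import Pool.Agent.Helper32.TS.RpBase
import Pool.Agent.Helper32.TS.RsZ

/-!
# `OL2Brp`: the positive parts of a far cell
-/

set_option autoImplicit false

namespace Pool.Agent.Helper32.TS

open Pool.Agent.Helper74.TS

theorem vl_fv (w A B : ℝ) : vl w A B = fv w A B (max (w - A) 0) (max (w - B) 0) := by
  unfold vl fv
  ring

theorem cp_of {w A B : ℝ} (c : Cell3 w A B) (h : 9 / 20 ≤ A + B - w) :
    CP w A B (max (w - A) 0) (max (w - B) 0) := by
  obtain ⟨w0, w1, A0, B0, lo, hi⟩ := c
  have key : ∀ x : ℝ, max x 0 * (max x 0 - x) ≤ 0 := by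
    intro x
    rcases le_total x 0 with k | k
    · rw [max_eq_right k]
      linarith
    · rw [max_eq_left k]
      linarith
  refine ⟨w0, A0, B0, w1, by linarith, h, le_max_right _ _, le_max_right _ _, le_max_left _ _,
    le_max_left _ _, ?_, ?_, max_le (by linarith) B0, max_le (by linarith) A0, fun k => ?_,
    fun k => ?_, fun k => ?_, fun k => ?_⟩
  · have := key (w - A)
    linarith
  · have := key (w - B)
    linarith
  · exact max_eq_right (by linarith)
  · exact max_eq_left (by linarith)
  · exact max_eq_right (by linarith)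
  · exact max_eq_left (by linarith)

end Pool.Agent.Helper32.TS
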