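import Pool.Agent.Helper8.FC.Check10
import Pool.Agent.Helper83.Cert.Check
import Pool.Agent.Helper32.TS.RpBase

/-!
# `OL2Brp`: the class of the main column, block DB, pattern M
-/

set_option autoImplicit false
set_option maxRecDepth 100000

namespace Pool.Agent.Helper32.TS

open Pool.Agent.Helper83.Cert
open Pool.Agent.Helper8.FC (certX)

theorem dbM0r_0 {w A B p q x E F r s g : ℝ} (c : CP w A B p q) (d : CP x E F r s)
    (j1 : 43 / 100 ≤ fv x E F r s) (jx : 149 / 200 ≤ x) (m1 : w + x ≤ 1)
    (hg : g ≤ 11 / 25 * (1 - w - x)) :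
    fv w A B p q + fv x E F r s + g ≤ 229 / 2000 - 3 / 100 * (1 - B) + 9 / 50 * (A + B - w) + 1 / 100 * (1 - A) -
      21 / 100 * (1 - F) + 53 / 100 * (E + F - x) := by
  obtain ⟨hw, hA, hB, h1, ht, hu, hp, hq, ha, hb, hc, hd, he, hf0, p0, p1, q0, q1⟩ := c
  obtain ⟨ew, eA, eB, e1, et, eu, ep, eq, ea, eb, ec, ed, ee, ef, r0, r1, s0, s1⟩ := d
  unfold fv at *
  have h := certX (y := yw w A B p q x E F r s 0 0)
    (gs := [(.v 2),
      (.v 3),
      (.v 5),
      (.add (.c (1)) (.mul (.c (-1)) (.v 2))),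
      (.add (.add (.c (1)) (.v 2)) (.add (.mul (.c (-1)) (.v 3)) (.mul (.c (-1)) (.v 5)))),
      (.add (.add (.c (-9)) (.mul (.c (-20)) (.v 2))) (.add (.mul (.c (20)) (.v 3)) (.mul (.c (20)) (.v 5)))),
      (.v 7),
      (.add (.mul (.c (-1)) (.v 2)) (.add (.v 3) (.v 7))),
      (.add (.mul (.v 2) (.v 7)) (.add (.mul (.c (-1)) (.mul (.v 3) (.v 7))) (.mul (.c (-1)) (.mul (.v 7) (.v 7))))),
      (.add (.v 5) (.mul (.c (-1)) (.v 7))),
      (.v 11),
      (.add (.mul (.c (-1)) (.v 2)) (.add (.v 5) (.v 11))),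
      (.add (.mul (.v 2) (.v 11)) (.add (.mul (.c (-1)) (.mul (.v 5) (.v 11))) (.mul (.c (-1)) (.mul (.v 11) (.v 11))))),
      (.add (.v 3) (.mul (.c (-1)) (.v 11))),
      (.v 13),
      (.v 17),
      (.v 19),
      (.add (.c (1)) (.mul (.c (-1)) (.v 13))),
      (.add (.add (.c (1)) (.v 13)) (.add (.mul (.c (-1)) (.v 17)) (.mul (.c (-1)) (.v 19)))),
      (.add (.add (.c (-9)) (.mul (.c (-20)) (.v 13))) (.add (.mul (.c (20)) (.v 17)) (.mul (.c (20)) (.v 19)))),
      (.v 23),
      (.add (.mul (.c (-1)) (.v 13)) (.add (.v 17) (.v 23))),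
      (.add (.mul (.v 13) (.v 23)) (.add (.mul (.c (-1)) (.mul (.v 17) (.v 23))) (.mul (.c (-1)) (.mul (.v 23) (.v 23))))),
      (.add (.v 19) (.mul (.c (-1)) (.v 23))),
      (.v 29),
      (.add (.mul (.c (-1)) (.v 13)) (.add (.v 19) (.v 29))),
      (.add (.mul (.v 13) (.v 29)) (.add (.mul (.c (-1)) (.mul (.v 19) (.v 29))) (.mul (.c (-1)) (.mul (.v 29) (.v 29))))),
      (.add (.v 17) (.mul (.c (-1)) (.v 29))),
      (.add (.add (.c (-129)) (.mul (.c (-100)) (.mul (.mul (.v 13) (.v 13)) (.v 13)))) (.add (.mul (.c (300)) (.mul (.mul (.v 13) (.v 17)) (.v 19))) (.add (.mul (.c (100)) (.mul (.mul (.v 23) (.v 23)) (.v 23))) (.mul (.c (100)) (.mul (.mul (.v 29) (.v 29)) (.v 29)))))),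
      (.add (.c (-149)) (.mul (.c (200)) (.v 13))),
      (.add (.c (1)) (.add (.mul (.c (-1)) (.v 2)) (.mul (.c (-1)) (.v 13))))])
    (p := (.add (.add (.add (.c (-3333)) (.add (.mul (.c (1560)) (.v 2)) (.mul (.c (1020)) (.v 3)))) (.add (.add (.mul (.c (1260)) (.v 5)) (.mul (.c (2000)) (.mul (.mul (.v 2) (.v 2)) (.v 2)))) (.add (.mul (.c (-540)) (.v 13)) (.mul (.c (3180)) (.v 17))))) (.add (.add (.add (.mul (.c (4440)) (.v 19)) (.mul (.c (-6000)) (.mul (.mul (.v 2) (.v 3)) (.v 5)))) (.add (.mul (.c (-2000)) (.mul (.mul (.v 7) (.v 7)) (.v 7))) (.mul (.c (-2000)) (.mul (.mul (.v 11) (.v 11)) (.v 11))))) (.add (.add (.mul (.c (2000)) (.mul (.mul (.v 13) (.v 13)) (.v 13))) (.mul (.c (-6000)) (.mul (.mul (.v 13) (.v 17)) (.v 19)))) (.add (.mul (.c (-2000)) (.mul (.mul (.v 23) (.v 23)) (.v 23))) (.mul (.c (-2000)) (.mul (.mul (.v 29) (.v 29)) (.v 29))))))))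
    999999999 202 0x6c00000000000003fa0e064800001700000000000001549f549080017440000000000000a0a8303920000cd00000000000000cae9171d800003400000000000001263a26b4000289000000000000031d473b3f0000024000000000000057bcba9820006d000000000000002ac5617548000d080000000000000b61ef635e0005cf000000000000005c08e1b1800093c00000000000001232d178801e28e0000000000000001b2338c5001e48000000000000000749d840018612000000000000000bad0dc10071148000000000000011f46984c0005cc000000000000001cfa465e8028a30000000000000018658610a00c08c00000000000000eb33a8920001720000000000000007804868401e28800000000000000001d16e640203200000000000000334a7c6b40002560000000000000014e72f90806165800000000000001676a7f8001159600000000000000edd3489b000165800000000000001f7fb42aa00078600000000000000000ebf2d5070f180000000000000000492bb08113860000000000000000bc0f016000818000000000000000c47b1280006d90000000000000155b7b5e8806516400000000000000af39fa9401c0d9000000000000001dcac59d0078a640000000000000000c2b6cd416299000000000000000a71fbcb806546400000000000000373862cb80e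519000000000000000083d256800d46400000000000000063e741a00251900000000000000000d1ffc4028a1400000000000001a507514c0001850000000000000007cbe2a7c058e1400000000000000212fcec20033850000000000000068a69e7000282140000000000000017e36fc20060850000000000000000f928ca404107c00000000000000e3d362220143df00000000000000008592f2404067c00000000000000024f968880019f000000000000000b3fcc64c00c37c00000000000000005466720020df00000000000001730de554800037c0000000000000039b92efc01f45f00000000000000930fd7e6807117c000000000000005b6c992601145f0000000000000022a69a06004117c000000000000028235d2a000045f000000000000008de330928000c4c0000000000000009aac8ec00f79300000000000000026908f7d001e4c0000000000000006a631b801c51300000000000000054100adc00144c000000000000004b68c09a011453000000000000002e4d37d4004114c000000000000007f246d7600079a00000000000000006479487001b6800000000000001866af9c800069a00000000000000d734ee4880016680000000000000040f88e9201945a000000000000009d84b01e0048e680000000000000023bab0bc00029a000000000000000147964e00005680000000000000069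a6ae3201c0da000000000000002655aa958069068000000000000036656742601241a00000000000001375de3338039068000000000000005f5ff848000695000000000000000f9bc6b3800175400000000000000f08f84dc0005150000000000000002921feb6000d540000000000000029f447b80162950000000000000000d801da0000954000000000000003bcd5574000095000000000000000e10f47b806155400000000000005040337da010555000000000000004d57b596006595400000000000000c0c45ab60166550000000000000062aae61380299540000000000000003cb513a01421500000000000000002ebdf1403085400000000000000574a050e0082150000000000000007de29000055c54000000000000015b685432012715000000000000001603db8a8031c5400000000000000181412ee003715000000000000002163a9e78055f540000000000000239776ca40107d50000000000000017fc1ce5800df5400000000000000755b9a1c0027d500000000000000021a966b0001f540000000000000053dffa2c0006c7000000000000002edc44ec0000d1c000000000000000530f1f601c307000000000000000e1a40da800091c00000000000013c677e5c8000187000000000000000101f990a00c21c00000000000002abc5f79401e58700000000000000003bced2505961c0000000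000000015d94cc401c4c7000000000000000819e24e800131c000000000000000c2035bc01a387000000000000000a1f038f803ce1c0000000000000731e80da40107c7000000000000001ca30380800df1c00000000000005b2d07a660007c7000000000000002e6cb078007991c0000000000000000ce180280f647000000000000004dc5dbd4002191c000000000000004619c43601a4470000000000000000a0eebb005911c000000000000005111dc480104470000000000000008a1113d8078a1c000000000000000709e873c1a287000000000000001101c2fd0050a1c0000000000000002ed71e90052870000000000000006d5df87804471c00000000000000abe288700101c7000000000000001535dd2a803c71c000000000000061962f25e0061c7000000000000001cb0f60f000071c00000000000002e2bf56c80006cb0000000000000040e1ab32000132c00000000000000115e079801944b000000000000003059dbb08000d2c000000000000059d767e6801a78b00000000000000003ccf2b5009e2c00000000000000001c5fcb41958b000000000000002456422c804962c0000000000000084e2fe4e00f1cb00000000000002043ba825000c72c000000000000015a126fc801270b0000000000000020e17cb58031c2c00000000000000ab4977de00570b00000000000000257f16f180595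2c00000000000000566db89201454b000000000000000181613a000152c00000000000000cc3a555801818b0000000000000001663c5fc00862c0000000000000015b79c7f80018b00000000000000038fa1134041f2c000000000000009b8d25de0037cb000000000000000b9b87ab8009f2c00000000000000522e88420007cb0000000000000006ef9f538078a2c0000000000000006ec760000828b000000000000000b32079d001ca2c00000000000001d0e1f8bc00428b000000000000004eaa0679007cb2c000000000000007c5ee4d60152cb00000000000000014ace478040b2c000000000000003afb0c7200e2cb00000000000000118c29e58018b2c000000000000003aaa70758032cb000000000000010cfd3f010001a0400000000000000bb7df396000601000000000000001c8943b48000c040000000000000071a5be0c000241000000000000010ffe2562002040400000000000002ad5da9b20112c10000000000000044bf952a0040b0400000000000000e0e2ef2e00f08100000000000000432bd2208008204000000000000011d743f8801978100000000000000000b1c8b2041e040000000000000002081ea280078100000000000000037b7c5e1065f040000000000000139d0180a0117c10000000000000110218d1a8021f04000000000000011f4974b80007c100000000000002568e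aac800614040000000000000007c6a0d481050100000000000000020e0456e00540400000000000000056403b100050100000000000000019c0a7ba070a04000000000000008781e73c0192810000000000000048ece3d70060a0400000000000000fc085bea00028100000000000001a5d93ec0804450400000000000000ee90d38e002141000000000000011127b142000450400000000000003d255f2f000014100000000000001c0b6c963007070400000000000000556acc640191c1000000000000003a0b701d003870400000000000001e61b0de00071c10000000000000134083ad3000870400000000000001c524778e01c54100000000000000752c652600655040000000000000092bd3b380155410000000000000049357d0b803950400000000000000c4e135f600a541000000000000008e0585a2801d504000000000000027640873800254100000000000000017f04fa80 84 0xcc908e5a7fc81c96897b807800000000000000000004c142f112a56e0391fa29ee0201e000000000000000000008a9385b18c41a581e49b489f9b50000000000000000000034da391c0b26639e649c9ce1609400000000000000000015d8a82a7be458907592a75a808c4400000000000000000113898071c16ee152424a5651d261c00000000000000000199b9d8457c59e43f4556bb33998070000000000000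0000022644c1d072949e562f8b39c5caa1c00000000000000000070ee282f571cb8c27a8882a1766c400000000000000000004f8a81f791b2262a1e220e39f1d100000000000000000019b9f007f9232df5f8c77e47e858008000000000000000000e811634a678dc59f8686f472060020000000000000000000902402681e44fa06c6fcf547d97600000000000000000009683434a0dee5df5cabe2c725e018000000000000000000143958ae924ca0678f73ae85e474600000000000000000045b2f81e5573dedf31391fcd1f5f180000000000000000000336a8b26060e4807960609260263c000000000000000003a304a0930c8b91ceb2025a0a05f4f000000000000000000916770358845e4617a89729bb96838000000000000000002e22be1f205bdda2f920e318d7200e0000000000000000027453904187a69f749a89ba1c78723800000000000000000134f8e2f112a56e0391fa25ee02004000000000000000002268d68e4866c7b864180ad4e408010000000000000000001cb56a1a50391519d920216dd25d8400000000000000000047eed8b9573cc14526419de4a4801000000000000000000088ed20f392368df9008a2d69f60120000000000000000000db240e47e7c4e83a880958d46804800000000000000000abb21a1f6f93a01e18791c26a26012000000000000000000796f80ac9a5b69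c4c91cb07b368030000000000000000000cf5942d16a325189cf919a7e8600c000000000000000000780690ad5858e0ad5858588c801c300000000000000000004c64420390da69e36b8a7879fe008000000000000000000101d00bc44aa5f79e47e887a88802000000000000000000153b2821b3e4e74711e418aef5a0080000000000000000004bf61879c26d7a667c7ce474728a580000000000000000011923e2b5c25472c5d5325a75be2560000000000000000012b2f6888bd469697e4be56784f925800000000000000000040c86206030c8e4273917a4a36556000000000000000000364f2086e1265d7fb6dfe46a676e1800000000000000000004d3a09a65c791de3213398e6564600000000000000000001da9cbb44a95b85e47e87797c8018000000000000000000040291d6d243922f7231414df200600000000000000000001199a771ca275865577a5907c87180000000000000000001d82d950708a3b0d2208dec2ae0190000000000000000002e63c8e09039e1931c778a476e80640000000000000000002657a2ae331edd19eb92224e48dc500000000000000000037b10880485295688363cae4ab7314000000000000000000a73fa246af08721e5e2f37619a005000000000000000000245fb8e3e46a97a07957519171801400000000000000000000d7a11b923e7d8930aa210a7e0050000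0000000000000014a2d0e4826b686590817e8b42807c00000000000000000047d061d68da9c072360728fe1601f00000000000000000020d000d774db6066bf1c848199804c00000000000000000122e1a1edfa3afdbe93925392211530000000000000000000902408365bcb38d9e93931c3f484c00000000000000000075a08108b47238d69ef1d92a1ad930000000000000000001210387ea8e48b797bbe8e9e87804c000000000000000000ff5be1159f8abdd94094bf92be0130000000000000000003a1e20e484819d878185895b75804c0000000000000000006fa861ede5e5f202c9e5e5e9e6013000000000000000002cb5b4093c565798dd0901c417e804c000000000000000001dacae28791d5812a0555826b0a0130000000000000000003664386c95bfad376990d31cc8804c000000000000000000ac98616ca39185ca668316062e013000000000000000000118f508891847072e4b9ac8089804c000000000000000002fb41c2e5d393217ca089d8e985fda0000000000000000000c05583d7f5085e4585ad875567968000000000000000000793741020def9214ed796e79a9d1a000000000000000000dcf668e451689351cb9388553a8068000000000000000001dff4c1da1df9d1b4e2af92118219a00000000000000000075eb80811fd06f46aa1ca95dbd8068000000000000000000b3970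13782926ae12c71f1911601a00000000000000000019ed80ad7e82966196867e7ce478680000000000000000026f37c1b230c59b90b92d3d10be01a0000000000000000000decd86f747d9581616bc1e48e80680000000000000000005e0b01fa737643923495aa2c7201500000000000000000002f058af5e5ee0af5e5e5e8f5e1c2c0000000000000000019a3161d1db6e2e132a2a4c729a14b0000000000000000000e8080e4e1707273765165ba8a800400000000000000000425cac189d219c5fdad963f920a0010000000000000000020e95785f46e4ab965aba57c66b8004000000000000000006bc98e25da0717205d61f34c5fa001000000000000000000219e408241b485899f1c91677680040000000000000000028c67a0fb923a9a0d008e3155f6001000000000000000000ce6328 (by decide +kernel) (yw_nonneg hw hA hB hp hq ew eA eB ep eq (le_refl 0) (le_refl 0))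
    (by
      simp only [List.forall_mem_cons, exadd, exmul, exc, ew2, ew3, ew5, ew7, ew11, ew13, ew17, ew19, ew23, ew29]
      push_cast
      refine ⟨?_, ?_, ?_, ?_, ?_, ?_, ?_, ?_, ?_, ?_, ?_, ?_, ?_, ?_, ?_, ?_, ?_, ?_, ?_, ?_, ?_, ?_, ?_, ?_, ?_, ?_, ?_, ?_, ?_, ?_, ?_, fun _ hh => absurd hh List.not_mem_nil⟩
      · linarith only [hw]
      · linarith only [hA]
      · linarith only [hB]
      · linarith only [h1]
      · linarith only [ht]
      · linarith only [hu]
      · linarith only [hp]
      · linarith only [ha]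
      · linarith only [hc]
      · linarith only [he]
      · linarith only [hq]
      · linarith only [hb]
      · linarith only [hd]
      · linarith only [hf0]
      · linarith only [ew]
      · linarith only [eA]
      · linarith only [eB]
      · linarith only [e1]
      · linarith only [et]
      · linarith only [eu]
      · linarith only [ep]
      · linarith only [ea]
      · linarith only [ec]
      · linarith only [ee]
      · linarith only [eq]
      · linarith only [eb]
      · linarith only [ed]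
      · linarith only [ef]
      · linarith only [j1]
      · linarith only [jx]
      · linarith only [m1]
    )
  simp only [exadd, exmul, exc, ew2, ew3, ew5, ew7, ew11, ew13, ew17, ew19, ew23, ew29] at h
  push_cast at h
  linarith only [h, hg]

/-- with a main cell: pattern M0 -/
theorem dbM0 {w A B p q x E F r s g : ℝ} (c : CP w A B p q) (d : CP x E F r s)
    (j1 : 43 / 100 ≤ fv x E F r s) (jx : 149 / 200 ≤ x) (m1 : w + x ≤ 1)
    (hg : g ≤ 11 / 25 * (1 - w - x)) :
    fv w A B p q + fv x E F r s + g ≤ 229 / 2000 - 3 / 100 * (1 - B) + 9 / 50 * (A + B - w) + 1 / 100 * (1 - A) -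
      21 / 100 * (1 - F) + 53 / 100 * (E + F - x) := by
  rcases le_total w A with k0 | k0 <;> rcases le_total w B with k1 | k1 <;>
    rcases le_total x E with k2 | k2 <;> rcases le_total x F with k3 | k3
  · exact dbM0r_0 c d j1 jx m1 hg 
  · exact dbM0r_0 c d j1 jx m1 hg 
  · exact dbM0r_0 c d j1 jx m1 hg 
  · exact dbM0r_0 c d j1 jx m1 hg 
  · exact dbM0r_0 c d j1 jx m1 hg 
  · exact dbM0r_0 c d j1 jx m1 hg 
  · exact dbM0r_0 c d j1 jx m1 hg 
  · exact dbM0r_0 c d j1 jx m1 hg 
  · exact dbM0r_0 c d j1 jx m1 hg 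
  · exact dbM0r_0 c d j1 jx m1 hg 
  · exact dbM0r_0 c d j1 jx m1 hg 
  · exact dbM0r_0 c d j1 jx m1 hg 
  · exfalso
    linarith only [c.hw, c.hA, c.hB, c.h1, c.ht, c.hu, d.hw, d.hA, d.hB, d.h1, d.ht, d.hu, m1, jx, k0, k1, k2, k3]
  · exfalso
    linarith only [c.hw, c.hA, c.hB, c.h1, c.ht, c.hu, d.hw, d.hA, d.hB, d.h1, d.ht, d.hu, m1, jx, k0, k1, k2, k3]
  · exfalso
    linarith only [c.hw, c.hA, c.hB, c.h1, c.ht, c.hu, d.hw, d.hA, d.hB, d.h1, d.ht, d.hu, m1, jx, k0, k1, k2, k3]
  · exfalso
    linarith only [c.hw, c.hA, c.hB, c.h1, c.ht, c.hu, d.hw, d.hA, d.hB, d.h1, d.ht, d.hu, m1, jx, k0, k1, k2, k3]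

theorem dbM1r_0 {w A B p q x E F r s z f g : ℝ} (c : CP w A B p q) (d : CP x E F r s)
    (j1 : 43 / 100 ≤ fv x E F r s) (jx : 149 / 200 ≤ x) (hz : 0 ≤ z) (m1 : w + x + z ≤ 1)
    (hg : g ≤ (1 - (w + x + z)) *
      (4 - 2 * (w + x + z) + (w + x + z) ^ 2 - 3 * (w ^ 2 + x ^ 2 + z ^ 2)) / 12)
    (hf : f ≤ z * (1 + z) ^ 2 / 4 - z ^ 3 / 3) :
    fv w A B p q + fv x E F r s + f + g ≤ 229 / 2000 - 3 / 100 * (1 - B) + 9 / 50 * (A + B - w) + 1 / 100 * (1 - A) -
      21 / 100 * (1 - F) + 53 / 100 * (E + F - x) := by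
  obtain ⟨hw, hA, hB, h1, ht, hu, hp, hq, ha, hb, hc, hd, he, hf0, p0, p1, q0, q1⟩ := c
  obtain ⟨ew, eA, eB, e1, et, eu, ep, eq, ea, eb, ec, ed, ee, ef, r0, r1, s0, s1⟩ := d
  unfold fv at *
  have h := cert (y := yw w A B p q x E F r s z 0)
    (gs := [(.v 2),
      (.v 3),
      (.v 5),
      (.add (.c (1)) (.mul (.c (-1)) (.v 2))),
      (.add (.add (.c (1)) (.v 2)) (.add (.mul (.c (-1)) (.v 3)) (.mul (.c (-1)) (.v 5)))),
      (.add (.add (.c (-9)) (.mul (.c (-20)) (.v 2))) (.add (.mul (.c (20)) (.v 3)) (.mul (.c (20)) (.v 5)))),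
      (.v 7),
      (.add (.mul (.c (-1)) (.v 2)) (.add (.v 3) (.v 7))),
      (.add (.mul (.v 2) (.v 7)) (.add (.mul (.c (-1)) (.mul (.v 3) (.v 7))) (.mul (.c (-1)) (.mul (.v 7) (.v 7))))),
      (.add (.v 5) (.mul (.c (-1)) (.v 7))),
      (.v 11),
      (.add (.mul (.c (-1)) (.v 2)) (.add (.v 5) (.v 11))),
      (.add (.mul (.v 2) (.v 11)) (.add (.mul (.c (-1)) (.mul (.v 5) (.v 11))) (.mul (.c (-1)) (.mul (.v 11) (.v 11))))),
      (.add (.v 3) (.mul (.c (-1)) (.v 11))),
      (.v 13),
      (.v 17),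
      (.v 19),
      (.add (.c (1)) (.mul (.c (-1)) (.v 13))),
      (.add (.add (.c (1)) (.v 13)) (.add (.mul (.c (-1)) (.v 17)) (.mul (.c (-1)) (.v 19)))),
      (.add (.add (.c (-9)) (.mul (.c (-20)) (.v 13))) (.add (.mul (.c (20)) (.v 17)) (.mul (.c (20)) (.v 19)))),
      (.v 23),
      (.add (.mul (.c (-1)) (.v 13)) (.add (.v 17) (.v 23))),
      (.add (.mul (.v 13) (.v 23)) (.add (.mul (.c (-1)) (.mul (.v 17) (.v 23))) (.mul (.c (-1)) (.mul (.v 23) (.v 23))))),
      (.add (.v 19) (.mul (.c (-1)) (.v 23))),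
      (.v 29),
      (.add (.mul (.c (-1)) (.v 13)) (.add (.v 19) (.v 29))),
      (.add (.mul (.v 13) (.v 29)) (.add (.mul (.c (-1)) (.mul (.v 19) (.v 29))) (.mul (.c (-1)) (.mul (.v 29) (.v 29))))),
      (.add (.v 17) (.mul (.c (-1)) (.v 29))),
      (.add (.add (.c (-129)) (.mul (.c (-100)) (.mul (.mul (.v 13) (.v 13)) (.v 13)))) (.add (.mul (.c (300)) (.mul (.mul (.v 13) (.v 17)) (.v 19))) (.add (.mul (.c (100)) (.mul (.mul (.v 23) (.v 23)) (.v 23))) (.mul (.c (100)) (.mul (.mul (.v 29) (.v 29)) (.v 29)))))),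
      (.add (.c (-149)) (.mul (.c (200)) (.v 13))),
      (.v 31),
      (.add (.add (.c (1)) (.mul (.c (-1)) (.v 2))) (.add (.mul (.c (-1)) (.v 13)) (.mul (.c (-1)) (.v 31))))])
    (p := .mul (.c 1000000000) (.add (.add (.add (.add (.c (-2693)) (.mul (.c (1920)) (.v 2))) (.add (.mul (.c (1020)) (.v 3)) (.add (.mul (.c (1260)) (.v 5)) (.mul (.c (1000)) (.mul (.mul (.v 2) (.v 2)) (.v 2)))))) (.add (.add (.mul (.c (-180)) (.v 13)) (.add (.mul (.c (3180)) (.v 17)) (.mul (.c (4440)) (.v 19)))) (.add (.mul (.c (-3000)) (.mul (.v 2) (.v 13))) (.add (.mul (.c (-6000)) (.mul (.mul (.v 2) (.v 3)) (.v 5))) (.mul (.c (1500)) (.v 31)))))) (.add (.add (.add (.mul (.c (-3000)) (.mul (.v 2) (.v 31))) (.mul (.c (-2000)) (.mul (.mul (.v 7) (.v 7)) (.v 7)))) (.add (.mul (.c (-3000)) (.mul (.v 13) (.v 31))) (.add (.mul (.c (3000)) (.mul (.mul (.v 2) (.v 13)) (.v 31))) (.mul (.c (-3000)) (.mul (.v 31) (.v 31)))))) (.add (.add (.mul (.c (-2000)) (.mul (.mul (.v 11) (.v 11)) (.v 11))) (.add (.mul (.c (1000)) (.mul (.mul (.v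 13) (.v 13)) (.v 13))) (.mul (.c (-6000)) (.mul (.mul (.v 13) (.v 17)) (.v 19))))) (.add (.mul (.c (-2000)) (.mul (.mul (.v 23) (.v 23)) (.v 23))) (.add (.mul (.c (-2000)) (.mul (.mul (.v 29) (.v 29)) (.v 29))) (.mul (.c (-500)) (.mul (.mul (.v 31) (.v 31)) (.v 31)))))))))
    (e := (.add (.add (.add (.add (.add (.mul (.pp [(1, 6190200)]) (.sq [(1, -83), (2, -14), (3, 78), (5, -63), (7, 30), (11, -100), (13, -16), (17, 89), (19, -37), (23, 68), (29, 83), (31, -52)])) (.add (.mul (.pp [(1, 2727600)]) (.sq [(1, -74), (2, -31), (3, -82), (11, 100), (13, -11), (17, 90), (19, -63), (23, 22), (29, 81), (31, -32)])) (.mul (.g 30) (.add (.add (.add (.add (.mul (.pp [(1, 2401800)]) (.sq [(2, -1), (3, -3), (5, -37), (7, -1), (11, -100), (13, -1), (17, 17), (19, 46), (23, 14), (29, -86), (31, 1)])) (.mul (.pp [(1, 10574400)]) (.sq [(1, -89), (3, 15), (5, -36), (7, -36), (11, -11), (17, 100), (19, -36), (23, -36), (29, 49), (31, -7)]))) (.add (.mul (.pp [(1, 910800)]) (.sq [(1, 32), (2, -61), (3, -2), (5, 32), (7,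 -54), (11, -62), (13, -27), (17, -55), (19, -48), (23, -32), (29, 5), (31, 100)])) (.mul (.g 6) (.add (.add (.add (.pp [(1, 669456000000)]) (.mul (.g 2) (.pp [(1, 15474000000)]))) (.add (.mul (.g 6) (.pp [(1, 9774000000)])) (.mul (.g 7) (.pp [(1, 20544000000)])))) (.add (.add (.mul (.g 24) (.pp [(1, 129360000000)])) (.mul (.g 25) (.pp [(1, 1092000000)]))) (.add (.mul (.g 27) (.pp [(1, 71748000000)])) (.mul (.g 31) (.pp [(1, 32064000000)])))))))) (.add (.add (.mul (.g 0) (.add (.add (.pp [(1, 5862204000000)]) (.add (.mul (.g 0) (.pp [(1, 659670000000)])) (.mul (.g 1) (.pp [(1, 1754526000000)])))) (.add (.add (.mul (.g 2) (.pp [(1, 586518000000)])) (.mul (.g 16) (.pp [(1, 272688000000)]))) (.add (.mul (.g 18) (.pp [(1, 167454000000)])) (.mul (.g 20) (.pp [(1, 70842000000)])))))) (.mul (.g 31) (.add (.add (.pp [(1, 4416696000000)]) (.add (.mul (.g 1) (.pp [(1, 37734000000)])) (.mul (.g 2) (.pp [(1, 97644000000)])))) (.add (.add (.mul (.g 10) (.pp [(1, 11994000000)])) (.mul (.g 16) (.pp [(1, 171234000000)])))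 (.add (.mul (.g 24) (.pp [(1, 8838000000)])) (.mul (.g 30) (.pp [(1, 96000000000)]))))))) (.add (.mul (.g 1) (.add (.add (.mul (.g 2) (.pp [(1, 3079302000000)])) (.mul (.g 11) (.pp [(1, 1036746000000)]))) (.add (.mul (.g 19) (.pp [(1, 1494600000)])) (.add (.mul (.g 23) (.pp [(1, 7512000000)])) (.mul (.g 27) (.pp [(1, 12120000000)])))))) (.add (.mul (.g 5) (.add (.add (.pp [(1, 12999900000)]) (.mul (.g 2) (.pp [(1, 21585000000)]))) (.add (.mul (.g 13) (.pp [(1, 228600000)])) (.add (.mul (.g 19) (.pp [(1, 5580000)])) (.mul (.g 24) (.pp [(1, 1483800000)])))))) (.mul (.g 16) (.add (.add (.mul (.g 10) (.pp [(1, 50256000000)])) (.mul (.g 20) (.pp [(1, 595200000000)]))) (.add (.mul (.g 24) (.pp [(1, 495786000000)])) (.add (.mul (.g 27) (.pp [(1, 358920000000)])) (.mul (.g 30) (.pp [(1, 140892000000)])))))))))) (.add (.add (.add (.mul (.g 20) (.add (.add (.mul (.g 10) (.pp [(1, 80292000000)])) (.mul (.g 15) (.pp [(1, 147546000000)]))) (.add (.mul (.g 20) (.pp [(1, 376008000000)])) (.mul (.g 27) (.pp [(1, 1524000000)])))))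 (.mul (.g 14) (.add (.mul (.g 4) (.pp [(1, 81366000000)])) (.add (.mul (.g 19) (.pp [(1, 11649600000)])) (.mul (.g 30) (.pp [(1, 1051008000000)])))))) (.add (.mul (.g 23) (.add (.mul (.g 4) (.pp [(1, 2982000000)])) (.add (.mul (.g 23) (.pp [(1, 301434000000)])) (.mul (.g 30) (.pp [(1, 828000000)]))))) (.mul (.g 29) (.add (.pp [(1, 11538930000)]) (.add (.mul (.g 2) (.pp [(1, 17940000)])) (.mul (.g 15) (.pp [(1, 205380000)]))))))) (.add (.add (.mul (.g 13) (.add (.mul (.g 9) (.pp [(1, 43170000000)])) (.mul (.g 13) (.pp [(1, 67968000000)])))) (.mul (.g 19) (.add (.pp [(1, 25148100000)]) (.mul (.g 30) (.pp [(1, 393000000)]))))) (.add (.mul (.g 25) (.add (.mul (.g 10) (.pp [(1, 5238000000)])) (.mul (.g 27) (.pp [(1, 4998000000)])))) (.add (.mul (.g 11) (.mul (.g 24) (.pp [(1, 13470000000)]))) (.mul (.g 21) (.mul (.g 21) (.pp [(1, 20826000000)]))))))))))) (.add (.add (.mul (.g 31) (.add (.add (.add (.add (.pp [(1, 1033836000000)]) (.mul (.pp [(1, 7230000)]) (.sq [(2, -46), (3, -1), (5, -97), (7, -16), (13, 100),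 (17, 55), (19, -5), (23, -11), (29, 57), (31, 20)]))) (.add (.mul (.pp [(1, 2113200)]) (.sq [(2, 76), (3, 40), (5, -50), (7, -56), (11, -89), (13, -81), (17, 23), (19, 22), (23, 100), (29, -74), (31, 62)])) (.mul (.pp [(1, 40267800)]) (.sq [(2, 38), (3, 3), (5, 3), (7, 3), (11, 3), (13, 38), (17, 3), (19, 3), (23, 3), (29, 3), (31, -100)])))) (.add (.add (.mul (.g 20) (.add (.add (.add (.pp [(1, 12744000000)]) (.mul (.g 0) (.pp [(1, 34722000000)]))) (.add (.mul (.g 1) (.pp [(1, 7248000000)])) (.mul (.g 6) (.pp [(1, 56436000000)])))) (.add (.add (.mul (.g 10) (.pp [(1, 62562000000)])) (.mul (.g 14) (.pp [(1, 3600000000)]))) (.add (.mul (.g 15) (.pp [(1, 102714000000)])) (.add (.mul (.g 16) (.pp [(1, 30948000000)])) (.mul (.g 20) (.pp [(1, 690888000000)]))))))) (.mul (.g 1) (.add (.add (.pp [(1, 183024000000)]) (.add (.mul (.g 0) (.pp [(1, 636006000000)])) (.mul (.g 1) (.pp [(1, 55392000000)])))) (.add (.add (.mul (.g 2) (.pp [(1, 4622322000000)])) (.mul (.g 10) (.pp [(1, 920538000000)]))) (.add (.mul (.g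 16) (.pp [(1, 61266000000)])) (.mul (.g 24) (.pp [(1, 37914000000)]))))))) (.add (.mul (.g 6) (.add (.add (.pp [(1, 685374000000)]) (.add (.mul (.g 2) (.pp [(1, 12360000000)])) (.mul (.g 6) (.pp [(1, 34896000000)])))) (.add (.add (.mul (.g 10) (.pp [(1, 54000000)])) (.mul (.g 14) (.pp [(1, 20724000000)]))) (.add (.mul (.g 15) (.pp [(1, 39528000000)])) (.mul (.g 16) (.pp [(1, 50148000000)])))))) (.mul (.g 10) (.add (.add (.mul (.g 0) (.pp [(1, 100314000000)])) (.mul (.g 10) (.pp [(1, 88494000000)]))) (.add (.mul (.g 17) (.pp [(1, 30882000000)])) (.add (.mul (.g 21) (.pp [(1, 2118000000)])) (.mul (.g 24) (.pp [(1, 55848000000)]))))))))) (.add (.add (.add (.mul (.g 2) (.add (.add (.pp [(1, 160212000000)]) (.mul (.g 2) (.pp [(1, 383376000000)]))) (.add (.mul (.g 15) (.pp [(1, 54744000000)])) (.mul (.g 24) (.pp [(1, 38484000000)]))))) (.mul (.g 16) (.add (.add (.pp [(1, 692454000000)]) (.mul (.g 15) (.pp [(1, 457476000000)]))) (.add (.mul (.g 16) (.pp [(1, 353034000000)])) (.mul (.g 24) (.pp [(1, 9930000000)]))))))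 (.add (.mul (.g 14) (.add (.pp [(1, 117372000000)]) (.mul (.g 27) (.pp [(1, 33150000000)])))) (.mul (.g 0) (.pp [(1, 2331054000000)])))) (.add (.add (.mul (.g 11) (.mul (.g 21) (.pp [(1, 19416000000)]))) (.mul (.g 13) (.pp [(1, 53268000000)]))) (.add (.mul (.g 15) (.mul (.g 15) (.pp [(1, 81372000000)]))) (.mul (.g 27) (.pp [(1, 198714000000)]))))))) (.mul (.g 6) (.add (.add (.add (.add (.mul (.g 24) (.add (.add (.mul (.g 2) (.pp [(1, 49860000000)])) (.add (.mul (.g 14) (.pp [(1, 5034000000)])) (.mul (.g 16) (.pp [(1, 97116000000)])))) (.add (.mul (.g 19) (.pp [(1, 1612800000)])) (.add (.mul (.g 20) (.pp [(1, 714000000)])) (.mul (.g 27) (.pp [(1, 1566000000)])))))) (.mul (.g 6) (.add (.add (.mul (.g 1) (.pp [(1, 1534236000000)])) (.mul (.g 3) (.pp [(1, 1593126000000)]))) (.add (.mul (.g 5) (.pp [(1, 6679500000)])) (.add (.mul (.g 10) (.pp [(1, 11850000000)])) (.mul (.g 20) (.pp [(1, 19062000000)]))))))) (.add (.mul (.g 7) (.add (.add (.mul (.g 0) (.pp [(1, 86844000000)])) (.mul (.g 7) (.pp [(1, 40362000000)])))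 (.add (.mul (.g 15) (.pp [(1, 649782000000)])) (.mul (.g 20) (.pp [(1, 589458000000)]))))) (.mul (.g 1) (.add (.pp [(1, 851544000000)]) (.add (.mul (.g 15) (.pp [(1, 90240000000)])) (.mul (.g 19) (.pp [(1, 562800000)]))))))) (.add (.add (.mul (.g 5) (.add (.pp [(1, 5258400000)]) (.add (.mul (.g 2) (.pp [(1, 22877100000)])) (.mul (.g 10) (.pp [(1, 1432800000)]))))) (.mul (.g 0) (.add (.mul (.g 20) (.pp [(1, 31986000000)])) (.mul (.g 25) (.pp [(1, 20664000000)]))))) (.add (.mul (.g 13) (.add (.pp [(1, 10416000000)]) (.mul (.g 2) (.pp [(1, 10158000000)])))) (.mul (.g 16) (.add (.mul (.g 10) (.pp [(1, 19506000000)])) (.mul (.g 18) (.pp [(1, 17316000000)]))))))) (.add (.add (.add (.mul (.g 23) (.add (.pp [(1, 60768000000)]) (.mul (.g 23) (.pp [(1, 29514000000)])))) (.mul (.g 29) (.add (.pp [(1, 2175720000)]) (.mul (.g 9) (.pp [(1, 3212790000)]))))) (.add (.mul (.g 8) (.pp [(1, 2808726000000)])) (.mul (.g 11) (.mul (.g 25) (.pp [(1, 20736000000)]))))) (.add (.add (.mul (.g 14) (.mul (.g 19) (.pp [(1, 698400000)])))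 (.mul (.g 15) (.mul (.g 20) (.pp [(1, 19458000000)])))) (.add (.mul (.g 18) (.pp [(1, 71340000000)])) (.mul (.g 27) (.pp [(1, 30174000000)])))))))) (.add (.mul (.g 0) (.add (.add (.add (.add (.mul (.pp [(1, 7882800)]) (.sq [(1, -14), (2, -80), (3, -11), (5, -35), (7, -9), (11, 40), (13, 58), (17, 100), (19, 45), (23, -13), (29, 27), (31, 38)])) (.mul (.pp [(1, 6174000)]) (.sq [(2, 100), (3, 22), (5, 42), (7, 25), (11, -9), (13, 63), (17, 77), (19, 51), (23, -12), (31, 8)]))) (.add (.mul (.pp [(1, 210336000000)]) (.sq [(2, 2), (13, -1), (31, -1)])) (.mul (.g 16) (.add (.add (.pp [(1, 374208000000)]) (.mul (.g 0) (.pp [(1, 41076000000)]))) (.add (.mul (.g 1) (.pp [(1, 103296000000)])) (.add (.mul (.g 20) (.pp [(1, 192048000000)])) (.mul (.g 23) (.pp [(1, 360012000000)])))))))) (.add (.add (.mul (.g 20) (.add (.add (.mul (.g 1) (.pp [(1, 99738000000)])) (.mul (.g 2) (.pp [(1, 131292000000)]))) (.add (.mul (.g 20) (.pp [(1, 508836000000)])) (.mul (.g 21) (.pp [(1, 299808000000)]))))) (.mul (.g 0) (.add (.mul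 (.g 2) (.pp [(1, 141336000000)])) (.add (.mul (.g 4) (.pp [(1, 121818000000)])) (.mul (.g 14) (.pp [(1, 1953318000000)])))))) (.add (.mul (.g 9) (.add (.pp [(1, 339720000000)]) (.add (.mul (.g 15) (.pp [(1, 60990000000)])) (.mul (.g 27) (.pp [(1, 330000000)]))))) (.mul (.g 23) (.add (.pp [(1, 77328000000)]) (.add (.mul (.g 21) (.pp [(1, 283338000000)])) (.mul (.g 25) (.pp [(1, 61104000000)])))))))) (.add (.add (.add (.mul (.g 1) (.add (.pp [(1, 171192000000)]) (.mul (.g 13) (.pp [(1, 7410000000)])))) (.mul (.g 14) (.add (.mul (.g 14) (.pp [(1, 101670000000)])) (.mul (.g 25) (.pp [(1, 168168000000)]))))) (.add (.mul (.g 24) (.add (.mul (.g 15) (.pp [(1, 7794000000)])) (.mul (.g 24) (.pp [(1, 25662000000)])))) (.mul (.g 4) (.pp [(1, 1391910000000)])))) (.add (.add (.mul (.g 12) (.pp [(1, 886260000000)])) (.mul (.g 13) (.pp [(1, 407202000000)]))) (.add (.mul (.g 19) (.pp [(1, 4342200000)])) (.mul (.g 27) (.pp [(1, 178764000000)]))))))) (.mul (.g 18) (.add (.add (.add (.mul (.pp [(1, 3223200)]) (.sq [(1, -6),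 (2, 100), (3, 17), (5, 53), (7, 33), (11, 56), (13, -40), (17, -19), (19, 60), (23, -3), (29, -3), (31, -26)])) (.add (.mul (.pp [(1, 648600)]) (.sq [(3, -9), (5, -26), (7, 100), (11, 21), (13, 47), (17, -57), (19, -30), (23, -7), (29, 33), (31, -27)])) (.mul (.pp [(1, 2822400)]) (.sq [(2, -36), (3, 46), (5, 73), (7, 8), (11, -100), (13, -36), (17, 13), (19, -20), (23, 13), (29, -9), (31, 89)])))) (.add (.add (.mul (.pp [(1, 510000)]) (.sq [(2, -53), (3, 31), (5, 13), (7, -41), (11, -100), (13, 32), (17, 18), (19, -44), (23, 31), (29, -96), (31, 25)])) (.mul (.pp [(1, 1884000)]) (.sq [(2, -40), (3, 34), (5, -77), (7, -14), (11, 100), (13, -55), (17, 33), (19, 45), (23, -5), (29, -37), (31, 90)]))) (.add (.mul (.pp [(1, 3072000)]) (.sq [(1, -78), (2, -46), (3, -33), (5, 91), (7, 27), (11, -2), (17, 24), (19, 27), (23, 14), (29, 100), (31, -40)])) (.mul (.g 23) (.add (.add (.pp [(1, 114636000000)]) (.mul (.g 5) (.pp [(1, 640200000)]))) (.add (.mul (.g 11) (.pp [(1, 3936000000)])) (.add (.mul (.g 16) (.pp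 [(1, 173046000000)])) (.mul (.g 23) (.pp [(1, 8142000000)]))))))))) (.add (.add (.add (.mul (.g 19) (.add (.pp [(1, 39984000000)]) (.add (.mul (.g 15) (.pp [(1, 2733000000)])) (.mul (.g 16) (.pp [(1, 35165400000)]))))) (.mul (.g 29) (.add (.pp [(1, 10033470000)]) (.add (.mul (.g 14) (.pp [(1, 8132190000)])) (.mul (.g 15) (.pp [(1, 692880000)])))))) (.add (.mul (.g 27) (.add (.mul (.g 16) (.pp [(1, 300078000000)])) (.mul (.g 20) (.pp [(1, 21186000000)])))) (.mul (.g 1) (.mul (.g 1) (.pp [(1, 31044000000)]))))) (.add (.add (.mul (.g 5) (.pp [(1, 181800000)])) (.mul (.g 7) (.pp [(1, 25470000000)]))) (.add (.mul (.g 13) (.pp [(1, 4656000000)])) (.mul (.g 25) (.pp [(1, 654420000000)])))))))))) (.add (.add (.add (.mul (.g 20) (.add (.add (.add (.mul (.pp [(1, 165600)]) (.sq [(1, -27), (2, -57), (3, 90), (5, -100), (7, 12), (11, 7), (13, -17), (17, -50), (19, 74), (23, 33), (29, -76), (31, 32)])) (.add (.mul (.g 20) (.add (.add (.mul (.g 4) (.pp [(1, 85674000000)])) (.mul (.g 10) (.pp [(1, 162492000000)]))) (.add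 (.mul (.g 15) (.pp [(1, 511818000000)])) (.add (.mul (.g 23) (.pp [(1, 1361658000000)])) (.mul (.g 27) (.pp [(1, 173034000000)])))))) (.mul (.g 4) (.add (.mul (.g 2) (.pp [(1, 116184000000)])) (.add (.mul (.g 10) (.pp [(1, 60534000000)])) (.mul (.g 23) (.pp [(1, 43242000000)]))))))) (.add (.mul (.g 21) (.add (.mul (.g 2) (.pp [(1, 193542000000)])) (.add (.mul (.g 7) (.pp [(1, 26532000000)])) (.mul (.g 24) (.pp [(1, 170532000000)]))))) (.add (.mul (.g 9) (.add (.mul (.g 9) (.pp [(1, 12000000000)])) (.mul (.g 14) (.pp [(1, 49452000000)])))) (.mul (.g 11) (.add (.mul (.g 11) (.pp [(1, 50238000000)])) (.mul (.g 25) (.pp [(1, 93456000000)]))))))) (.add (.add (.mul (.g 7) (.mul (.g 23) (.pp [(1, 41934000000)]))) (.add (.mul (.g 10) (.pp [(1, 16086000000)])) (.mul (.g 12) (.pp [(1, 41724000000)])))) (.add (.add (.mul (.g 17) (.pp [(1, 157056000000)])) (.mul (.g 22) (.pp [(1, 625506000000)]))) (.add (.mul (.g 24) (.mul (.g 24) (.pp [(1, 114312000000)]))) (.mul (.g 27) (.mul (.g 27) (.pp [(1, 72846000000)]))))))))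 (.mul (.g 25) (.add (.add (.add (.mul (.pp [(1, 412200)]) (.sq [(1, 28), (2, 12), (3, -100), (5, 96), (7, 11), (11, -63), (13, -39), (17, 15), (19, -1), (23, 6), (29, -82), (31, 21)])) (.add (.mul (.pp [(1, 496200)]) (.sq [(2, -47), (3, -56), (5, -72), (7, 20), (11, -20), (13, -24), (17, 100), (19, 27), (23, -35), (29, 27), (31, -2)])) (.mul (.pp [(1, 1293600)]) (.sq [(2, -25), (3, -58), (5, 100), (7, -62), (11, 62), (13, -2), (17, 22), (19, 40), (23, -30), (29, 36), (31, -5)])))) (.add (.add (.mul (.pp [(1, 7230000000)]) (.sq [(2, -1), (31, 1)])) (.mul (.g 1) (.add (.pp [(1, 80112000000)]) (.add (.mul (.g 9) (.pp [(1, 5490000000)])) (.mul (.g 16) (.pp [(1, 5130000000)])))))) (.add (.mul (.g 23) (.add (.mul (.g 4) (.pp [(1, 4092000000)])) (.add (.mul (.g 21) (.pp [(1, 8988000000)])) (.mul (.g 24) (.pp [(1, 182196000000)]))))) (.mul (.g 13) (.add (.pp [(1, 22116000000)]) (.mul (.g 14) (.pp [(1, 16878000000)]))))))) (.add (.add (.add (.mul (.g 15) (.add (.mul (.g 17) (.pp [(1, 432384000000)])) (.mul (.g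 25) (.pp [(1, 2095578000000)])))) (.mul (.g 29) (.add (.pp [(1, 2652570000)]) (.mul (.g 14) (.pp [(1, 2270730000)]))))) (.add (.mul (.g 4) (.pp [(1, 124734000000)])) (.mul (.g 9) (.mul (.g 9) (.pp [(1, 9558000000)]))))) (.add (.add (.mul (.g 10) (.mul (.g 21) (.pp [(1, 8154000000)]))) (.mul (.g 16) (.mul (.g 25) (.pp [(1, 613290000000)])))) (.add (.mul (.g 24) (.pp [(1, 882732000000)])) (.mul (.g 26) (.pp [(1, 1241610000000)])))))))) (.add (.mul (.g 5) (.add (.add (.add (.mul (.pp [(1, 92460)]) (.sq [(3, 14), (5, -38), (7, -38), (11, -11), (17, 100), (19, -38), (23, -38), (29, 48)])) (.add (.mul (.pp [(1, 6810)]) (.sq [(2, -67), (3, 67), (5, 18), (7, 4), (11, -33), (13, 30), (17, 100), (19, 13), (23, -3), (29, 23), (31, 38)])) (.mul (.pp [(1, 8010)]) (.sq [(2, -36), (3, -72), (5, -7), (7, -35), (11, -26), (13, 42), (17, 46), (19, -41), (23, 41), (29, 82), (31, 100)])))) (.add (.add (.mul (.g 4) (.add (.pp [(1, 33374100000)]) (.add (.mul (.g 2) (.pp [(1, 5768100000)])) (.mul (.g 14) (.pp [(1, 10595700000)])))))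 (.mul (.g 10) (.add (.pp [(1, 983700000)]) (.mul (.g 13) (.pp [(1, 5189400000)]))))) (.add (.mul (.g 21) (.add (.mul (.g 2) (.pp [(1, 1693200000)])) (.mul (.g 5) (.pp [(1, 16830000)])))) (.mul (.g 23) (.add (.pp [(1, 1189200000)]) (.mul (.g 23) (.pp [(1, 1563300000)]))))))) (.add (.add (.add (.mul (.g 1) (.mul (.g 15) (.pp [(1, 229500000)]))) (.mul (.g 7) (.pp [(1, 23734800000)]))) (.add (.mul (.g 9) (.mul (.g 29) (.pp [(1, 158659500)]))) (.mul (.g 13) (.mul (.g 19) (.pp [(1, 16665000)]))))) (.add (.add (.mul (.g 14) (.mul (.g 24) (.pp [(1, 5273700000)]))) (.mul (.g 22) (.pp [(1, 243300000)]))) (.add (.mul (.g 26) (.pp [(1, 390900000)])) (.mul (.g 27) (.pp [(1, 49200000)]))))))) (.mul (.g 2) (.add (.add (.add (.mul (.pp [(1, 1281000)]) (.sq [(2, 58), (3, 1), (5, 1), (7, 1), (11, -100), (13, 37), (17, -59), (19, 25), (23, 5), (29, 19), (31, -98)])) (.mul (.pp [(1, 8356200)]) (.sq [(1, -6), (2, -36), (3, 100), (5, -25), (7, 43), (11, 14), (13, 10), (17, -22), (19, -9), (23, -37), (31, 13)]))) (.add (.mul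 (.pp [(1, 333000)]) (.sq [(2, -55), (3, 78), (5, -12), (7, 79), (11, 35), (13, -6), (17, -3), (19, 3), (23, 87), (29, -100), (31, 27)])) (.add (.mul (.pp [(1, 2877000)]) (.sq [(2, -6), (3, 45), (5, -100), (7, 32), (11, -77), (13, 2), (17, -30), (19, 28), (23, -28), (29, 33), (31, -2)])) (.mul (.g 10) (.add (.add (.pp [(1, 226638000000)]) (.mul (.g 1) (.pp [(1, 965940000000)]))) (.add (.mul (.g 10) (.pp [(1, 487560000000)])) (.mul (.g 11) (.pp [(1, 480546000000)])))))))) (.add (.add (.mul (.g 7) (.add (.mul (.g 7) (.pp [(1, 44484000000)])) (.mul (.g 21) (.pp [(1, 66690000000)])))) (.add (.mul (.g 1) (.mul (.g 29) (.pp [(1, 21627750000)]))) (.mul (.g 2) (.mul (.g 11) (.pp [(1, 237330000000)]))))) (.add (.mul (.g 4) (.mul (.g 9) (.pp [(1, 415134000000)]))) (.add (.mul (.g 14) (.mul (.g 21) (.pp [(1, 1710000000)]))) (.mul (.g 17) (.mul (.g 24) (.pp [(1, 187638000000)])))))))))) (.add (.add (.mul (.g 9) (.add (.add (.add (.mul (.pp [(1, 559200)]) (.sq [(1, 23), (2, -47), (3, 36), (5, -27), (7, -24), (11, 100),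 (13, 37), (17, -28), (19, -74), (23, 67), (29, 62), (31, -32)])) (.mul (.pp [(1, 734400)]) (.sq [(2, -47), (3, -1), (11, 100), (13, -49), (17, 58), (19, -12), (23, -1), (29, -34), (31, 97)]))) (.add (.mul (.g 1) (.add (.mul (.g 10) (.pp [(1, 12198000000)])) (.mul (.g 29) (.pp [(1, 942840000)])))) (.mul (.g 17) (.add (.mul (.g 16) (.pp [(1, 28758000000)])) (.mul (.g 29) (.pp [(1, 315450000)])))))) (.add (.add (.mul (.g 24) (.add (.mul (.g 7) (.pp [(1, 5430000000)])) (.mul (.g 11) (.pp [(1, 9486000000)])))) (.mul (.g 8) (.pp [(1, 1045692000000)]))) (.add (.mul (.g 9) (.mul (.g 9) (.pp [(1, 281334000000)]))) (.mul (.g 13) (.mul (.g 21) (.pp [(1, 22596000000)]))))))) (.mul (.g 10) (.add (.add (.mul (.pp [(1, 90600)]) (.sq [(1, 1), (2, 45), (3, -47), (5, 30), (7, 38), (11, -31), (13, 54), (17, -12), (19, -11), (23, 100), (29, 8), (31, 77)])) (.add (.mul (.g 24) (.add (.pp [(1, 30018000000)]) (.add (.mul (.g 10) (.pp [(1, 21570000000)])) (.mul (.g 14) (.pp [(1, 25176000000)]))))) (.mul (.g 1) (.add (.mul (.g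 21) (.pp [(1, 52290000000)])) (.mul (.g 29) (.pp [(1, 5060730000)])))))) (.add (.mul (.g 10) (.mul (.g 13) (.pp [(1, 1797528000000)]))) (.add (.mul (.g 17) (.mul (.g 17) (.pp [(1, 36000000)]))) (.mul (.g 19) (.mul (.g 21) (.pp [(1, 1144800000)])))))))) (.add (.mul (.g 13) (.add (.add (.mul (.pp [(1, 1954800)]) (.sq [(1, -94), (2, -100), (3, -19), (5, 11), (7, 36), (11, -23), (13, -13), (17, 58), (19, -47), (23, 21), (29, 77), (31, -33)])) (.add (.mul (.pp [(1, 2939400)]) (.sq [(1, 14), (2, -66), (3, -32), (5, 6), (7, 61), (11, -23), (13, 22), (17, -100), (19, 84), (23, 83), (29, -24), (31, 90)])) (.mul (.g 13) (.add (.mul (.g 13) (.pp [(1, 29142000000)])) (.mul (.g 23) (.pp [(1, 3450000000)])))))) (.add (.mul (.g 11) (.mul (.g 11) (.pp [(1, 719550000000)]))) (.add (.mul (.g 12) (.pp [(1, 548664000000)])) (.mul (.g 17) (.pp [(1, 11742000000)])))))) (.mul (.g 14) (.add (.add (.mul (.pp [(1, 13689000)]) (.sq [(1, -45), (2, 42), (3, 100), (5, -12), (7, 46), (13, 8), (17, 29), (19, -31), (23, 40), (29, -7),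 (31, 10)])) (.add (.mul (.pp [(1, 6670200)]) (.sq [(1, 36), (2, 60), (3, 97), (5, -29), (7, -5), (11, -57), (13, 17), (17, -96), (19, 100), (23, -41), (29, -60), (31, 44)])) (.mul (.pp [(1, 4581000)]) (.sq [(2, -1), (3, -45), (5, 5), (7, -3), (11, 100), (13, -1), (17, -22), (19, 22), (23, -6), (29, 93), (31, -3)])))) (.add (.add (.mul (.pp [(1, 35080800)]) (.sq [(1, -45), (3, 7), (5, -19), (7, -19), (11, -6), (17, 50), (19, -19), (23, -19), (29, 24)])) (.mul (.g 12) (.pp [(1, 22218000000)]))) (.add (.mul (.g 15) (.mul (.g 17) (.pp [(1, 916674000000)]))) (.mul (.g 26) (.pp [(1, 1024662000000)])))))))))) (.add (.add (.add (.mul (.g 16) (.add (.add (.mul (.pp [(1, 14512800)]) (.sq [(1, 5), (2, 9), (3, 20), (5, -8), (7, -3), (11, -49), (13, 4), (17, 38), (19, -97), (23, 31), (29, 100), (31, 17)])) (.add (.mul (.pp [(1, 4783200)]) (.sq [(1, 4), (2, 5), (3, -7), (5, -18), (7, -36), (11, -100), (13, 28), (17, -82), (19, 81), (23, -7), (29, 61), (31, -10)])) (.mul (.pp [(1, 1233600)]) (.sq [(1, -5), (2, -1), (3,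 23), (7, -83), (11, 47), (13, -10), (17, 50), (19, -100), (23, 46), (29, 12), (31, -1)])))) (.add (.add (.mul (.g 12) (.pp [(1, 69084000000)])) (.mul (.g 17) (.pp [(1, 257796000000)]))) (.add (.mul (.g 21) (.mul (.g 21) (.pp [(1, 1108680000000)]))) (.mul (.g 22) (.pp [(1, 2526246000000)])))))) (.add (.mul (.g 19) (.add (.add (.mul (.pp [(1, 621060)]) (.sq [(2, -3), (3, 19), (5, -10), (7, -1), (11, -12), (13, -62), (17, 13), (19, 61), (23, -2), (29, -100), (31, 55)])) (.add (.mul (.pp [(1, 84120)]) (.sq [(1, -7), (2, -38), (3, -18), (5, 22), (7, -31), (11, 27), (13, -51), (17, -33), (19, 100), (23, -20), (29, 23), (31, 1)])) (.mul (.pp [(1, 22860)]) (.sq [(1, 11), (2, 9), (3, 29), (5, -35), (7, -28), (11, -34), (17, 29), (19, -70), (23, -10), (29, 100), (31, 31)])))) (.add (.add (.mul (.pp [(1, 104430)]) (.sq [(1, -7), (2, 19), (3, 10), (5, -2), (7, 100), (11, -60), (13, 26), (17, -56), (19, 59), (23, -42), (29, -71), (31, -10)])) (.mul (.g 8) (.pp [(1, 2331300000)]))) (.add (.mul (.g 17) (.pp [(1, 31051500000)]))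 (.mul (.g 24) (.mul (.g 24) (.pp [(1, 108046800000)]))))))) (.mul (.g 15) (.add (.add (.mul (.pp [(1, 2583000)]) (.sq [(1, -38), (2, -6), (3, -92), (5, 22), (7, 20), (11, 47), (13, -5), (17, 100), (19, -94), (23, -21), (29, 66), (31, -20)])) (.mul (.pp [(1, 937200)]) (.sq [(1, 12), (2, 8), (3, 82), (5, -12), (7, -1), (11, 83), (13, 41), (17, -100), (19, 36), (23, -22), (29, 24), (31, -31)]))) (.add (.mul (.pp [(1, 4078200)]) (.sq [(1, 5), (2, -14), (3, 13), (5, -13), (7, 4), (11, 100), (13, 10), (17, -21), (19, 31), (23, 33), (29, -39), (31, -14)])) (.add (.mul (.pp [(1, 481200)]) (.sq [(1, 10), (2, -43), (3, -31), (7, -100), (11, 75), (13, -11), (17, -20), (19, 39), (23, 20), (29, 34), (31, 18)])) (.mul (.g 26) (.pp [(1, 4401726000000)])))))))) (.add (.add (.mul (.g 23) (.add (.add (.mul (.pp [(1, 71400)]) (.sq [(1, -20), (2, -20), (3, 62), (5, 12), (7, 100), (11, -61), (13, 1), (17, -18), (19, 10), (23, 83), (29, -13), (31, -4)])) (.mul (.pp [(1, 3277800)]) (.sq [(2, -47), (3, 31), (5, -61), (7, -43),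 (11, 63), (13, 55), (17, -100), (19, 78), (23, -60), (29, -13)]))) (.add (.mul (.pp [(1, 1629600)]) (.sq [(1, -19), (2, -13), (3, 23), (5, -67), (7, -36), (11, -52), (13, 3), (17, 68), (19, -100), (23, 22), (29, 98), (31, 8)])) (.mul (.g 11) (.mul (.g 24) (.pp [(1, 119352000000)])))))) (.mul (.g 27) (.add (.add (.mul (.pp [(1, 81600)]) (.sq [(1, -23), (2, -15), (3, 27), (5, -2), (7, -41), (11, -100), (13, 1), (17, 54), (19, -76), (23, -22), (29, 97), (31, 1)])) (.mul (.pp [(1, 2059800)]) (.sq [(1, 22), (2, 70), (3, -23), (5, 100), (7, 58), (11, -39), (13, -14), (17, -67), (19, 84), (23, -21), (29, 3), (31, 96)]))) (.add (.mul (.pp [(1, 829200)]) (.sq [(2, -16), (3, 3), (5, -45), (7, -36), (11, -10), (13, 1), (17, -76), (19, 55), (23, -83), (29, 100), (31, -2)])) (.mul (.g 22) (.pp [(1, 22392000000)])))))) (.add (.mul (.g 4) (.add (.mul (.pp [(1, 1831800)]) (.sq [(1, -25), (2, -45), (3, 100), (5, -84), (7, 13), (11, -41), (13, -5), (17, 9), (19, -16), (23, -48), (29, 63), (31, 6)])) (.add (.mul (.pp [(1,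 1244400)]) (.sq [(1, 59), (2, 11), (3, -61), (5, -100), (7, -20), (11, -91), (13, 33), (17, -94), (19, 70), (23, 47), (29, -32), (31, 37)])) (.mul (.pp [(1, 1338000)]) (.sq [(1, -12), (2, -84), (3, -95), (5, 4), (7, -62), (11, -75), (13, 100), (17, -67), (19, 22), (23, -13), (29, 68), (31, -12)]))))) (.mul (.g 7) (.add (.mul (.pp [(1, 5704800)]) (.sq [(1, -45), (3, 7), (5, -19), (7, -19), (11, -6), (17, 50), (19, -19), (23, -19), (29, 24)])) (.add (.mul (.pp [(1, 213600)]) (.sq [(1, -8), (2, 7), (3, -6), (5, -52), (7, -100), (11, 68), (13, -62), (17, 24), (19, 73), (23, 86), (29, -62), (31, 50)])) (.mul (.pp [(1, 48000)]) (.sq [(1, 1), (2, -19), (3, -16), (5, -62), (7, -39), (11, -93), (13, 68), (17, -63), (19, 47), (23, -42), (29, 100), (31, 3)])))))))) (.add (.add (.add (.mul (.g 12) (.add (.pp [(1, 319914000000)]) (.add (.mul (.g 1) (.pp [(1, 1930116000000)])) (.mul (.g 24) (.pp [(1, 28038000000)]))))) (.mul (.g 21) (.add (.mul (.g 21) (.add (.pp [(1, 445698000000)]) (.mul (.g 24) (.pp [(1, 6732000000)]))))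 (.mul (.g 8) (.pp [(1, 614124000000)]))))) (.add (.mul (.g 17) (.add (.mul (.pp [(1, 844956000000)]) (.sq [(2, 1), (31, -1)])) (.mul (.g 29) (.pp [(1, 9381900000)])))) (.mul (.g 22) (.add (.pp [(1, 1228566000000)]) (.mul (.g 11) (.pp [(1, 171648000000)])))))) (.add (.add (.mul (.g 3) (.mul (.pp [(1, 1619400)]) (.sq [(1, 33), (2, 37), (3, 30), (5, 35), (7, 19), (11, 100), (13, -27), (17, -25), (19, 13), (23, -1), (29, -62), (31, 16)]))) (.mul (.g 8) (.pp [(1, 2098182000000)]))) (.add (.mul (.g 24) (.mul (.g 26) (.pp [(1, 754176000000)]))) (.mul (.g 29) (.mul (.pp [(1, 12699)]) (.sq [(1, -9), (2, 61), (3, 81), (5, 100), (7, 41), (11, 71), (13, -53), (17, -18), (19, 38), (23, 56), (29, 36), (31, 39)])))))))) (.pp [(1, 23818500721), (2, 58699062), (3, 55345122), (4, 61151511), (5, 58117620), (6, 52825482), (7, 65538942), (8, 62185000), (9, 63536121), (10, 57702000), (11, 60485262), (12, 46887600), (13, 70615494), (14, 50004222), (15, 50221080), (17, 54423684), (18, 63272400), (19, 45817896), (20, 62941800),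 (21, 62651622), (22, 56576262), (23, 57286152), (25, 54562830), (26, 64652994), (27, 62399400), (28, 60403200), (29, 57474372), (30, 76029600), (31, 55536558), (33, 52259382), (34, 58565364), (35, 63436860), (38, 61317036), (39, 60426834), (42, 65056800), (44, 61227000), (45, 59812200), (46, 61594092), (49, 52824261), (50, 68433000), (51, 60387204), (52, 62278800), (55, 67538520), (57, 66291456), (58, 65642952), (62, 57151818), (63, 62575200), (65, 69473280), (66, 52350000), (68, 53272200), (69, 57378732), (70, 68641200), (75, 62508600), (76, 65965800), (77, 62371002), (78, 61165200), (85, 58647360), (87, 68722212), (91, 62689074), (92, 55933800), (93, 69723738), (95, 64210380), (98, 61594800), (99, 61963800), (102, 68928000), (105, 52855200), (110, 54544800), (114, 58569600), (115, 67244700), (116, 65527800), (117, 60489000), (119, 51309204), (121, 59545701), (124, 52348200), (125, 50850600), (130, 45874800), (133, 56799816), (138, 62848800), (143, 68953614), (145, 53001720), (147, 61523400), (153, 57360600),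 (154, 46701600), (155, 69206640), (161, 55931412), (165, 72708000), (169, 57341079), (170, 66108000), (171, 57250800), (174, 71604000), (175, 69550800), (182, 74769600), (186, 57613200), (187, 52806444), (190, 62908800), (195, 57408000), (203, 62804112), (207, 62861400), (209, 64483536), (217, 53657658), (221, 51525228), (230, 70480800), (231, 66009600), (238, 56058000), (242, 59565000), (245, 51931800), (247, 56361012), (253, 58378452), (255, 62460000), (261, 47931000), (266, 55617600), (273, 55030800), (275, 54229200), (279, 55581600), (285, 59534400), (286, 60400800), (289, 60466404), (290, 50403600), (299, 65448864), (310, 66451200), (319, 64207452), (322, 61094400), (323, 67480632), (325, 70853400), (338, 59952000), (341, 57617718), (343, 59658400), (345, 57000000), (357, 65876400), (361, 64021914), (363, 68052600), (374, 54996000), (377, 53158584), (385, 66583200), (391, 60173064), (399, 60885600), (403, 57138006), (406, 64012800), (418, 64255200), (425, 58513800), (429, 58335600), (434, 63342000),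 (435, 61575600), (437, 66114696), (442, 68815200), (455, 50175600), (465, 54098400), (475, 55715400), (483, 56516400), (493, 59451264), (494, 67603200), (506, 64155600), (507, 66996600), (527, 66569436), (529, 55461636), (539, 62015400), (551, 68984616), (561, 67254000), (575, 53057400), (578, 65385000), (589, 60595284), (595, 61774800), (598, 45961200), (605, 66651600), (609, 52880400), (627, 57508800), (637, 59464200), (638, 53372400), (646, 61724400), (651, 58363200), (663, 56210400), (665, 64141200), (667, 57081132), (682, 62958000), (713, 60705048), (715, 59934000), (722, 55581600), (725, 60122400), (741, 51118800), (754, 56803200), (759, 58119600), (775, 59122800), (782, 64603200), (805, 60754800), (806, 62266800), (833, 64832400), (841, 65025816), (845, 51825600), (847, 56137200), (867, 55987800), (874, 75678000), (897, 64958400), (899, 60418008), (931, 63567600), (935, 57866400), (957, 61525200), (961, 56796951), (969, 66952800), (986, 56132400), (1001, 52982400), (1015, 69633600), (1023, 55596000),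 (1045, 52256400), (1054, 60692400), (1058, 59398800), (1083, 61958400), (1085, 55260000), (1102, 66312000), (1105, 57819600), (1127, 66186600), (1131, 68167200), (1173, 55918800), (1178, 56803200), (1183, 59613600), (1209, 63060000), (1235, 59326800), (1265, 55496400), (1309, 54475200), (1311, 51930000), (1331, 57965200), (1334, 57501600), (1421, 56383800), (1426, 53203200), (1445, 61595400), (1463, 69609600), (1479, 61230000), (1495, 74172000), (1519, 61731600), (1547, 64116000), (1573, 62603400), (1581, 61930800), (1587, 60142200), (1595, 61011600), (1615, 59125200), (1653, 54505200), (1682, 61483800), (1705, 45676800), (1729, 68805600), (1767, 49524000), (1771, 51127200), (1798, 53995200), (1805, 64983000), (1859, 55993200), (1885, 61648800), (1922, 57592800), (1955, 55803600), (2001, 62914800), (2015, 61449600), (2023, 61430400), (2057, 63253800), (2093, 66949200), (2139, 61052400), (2185, 40710000), (2197, 60548200), (2233, 63855600), (2261, 51596400), (2299, 57255600), (2387, 61796400), (2431, 56739600),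 (2465, 60284400), (2523, 52844400), (2527, 61479600), (2635, 54210000), (2639, 47737200), (2645, 58635000), (2697, 68307600), (2717, 55879200), (2737, 57043200), (2755, 58746000), (2783, 60345600), (2821, 63271200), (2873, 66274800), (2883, 56125200), (2945, 55232400), (3059, 51645600), (3179, 59829600), (3211, 58681200), (3289, 69428400), (3335, 71089200), (3451, 62031600), (3509, 58909200), (3553, 67596000), (3565, 61918800), (3689, 59877600), (3703, 61339200), (3751, 59244600), (3757, 59314800), (3857, 65628000), (3887, 63949200), (3971, 56537400), (4123, 60208800), (4147, 58482000), (4199, 62161200), (4205, 62176800), (4301, 54886800), (4433, 49287600), (4495, 67470000), (4669, 61028400), (4693, 63033000), (4805, 59946000), (4807, 62450400), (4901, 50164200), (4913, 61765800), (4991, 60483600), (5083, 45672000), (5239, 65453400), (5423, 63412800), (5491, 62467200), (5681, 66842400), (5797, 62224800), (5819, 53397000), (5887, 57355200), (6061, 51160800), (6137, 52153200), (6293, 63093600), (6409, 79791600),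 (6479, 74882400), (6647, 69445200), (6727, 62163600), (6851, 59887200), (6859, 63498600), (6877, 54100800), (7163, 67075200), (7337, 58412400), (7429, 58790400), (7657, 53206800), (7843, 64791600), (8303, 52184400), (8381, 53316000), (8671, 66279600), (8959, 61083600), (8993, 68370000), (9251, 56287200), (9269, 61486800), (9367, 47966400), (9889, 54792000), (10013, 68648400), (10051, 62647800), (10469, 62284800), (10571, 58617000), (10933, 74647200), (11191, 63075000), (11339, 56320800), (11687, 64890000), (12121, 58279200), (12167, 64342600), (12493, 65185200), (12673, 54746400), (13547, 58509600), (14297, 52216800), (15283, 57421200), (15341, 56072400), (15979, 43795800), (16337, 56116200), (16399, 57868200), (17081, 53120400), (18259, 58303200), (19343, 63262800), (20677, 61798800), (22103, 58034400), (24389, 54444400), (26071, 56443800), (27869, 67755000), (29791, 64593400)])))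
    (by decide +kernel) (yw_nonneg hw hA hB hp hq ew eA eB ep eq hz (le_refl 0))
    (by
      simp only [List.forall_mem_cons, exadd, exmul, exc, ew2, ew3, ew5, ew7, ew11, ew13, ew17, ew19, ew23, ew29, ew31]
      push_cast
      refine ⟨?_, ?_, ?_, ?_, ?_, ?_, ?_, ?_, ?_, ?_, ?_, ?_, ?_, ?_, ?_, ?_, ?_, ?_, ?_, ?_, ?_, ?_, ?_, ?_, ?_, ?_, ?_, ?_, ?_, ?_, ?_, ?_, fun _ hh => absurd hh List.not_mem_nil⟩
      · linarith only [hw]
      · linarith only [hA]
      · linarith only [hB]
      · linarith only [h1]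
      · linarith only [ht]
      · linarith only [hu]
      · linarith only [hp]
      · linarith only [ha]
      · linarith only [hc]
      · linarith only [he]
      · linarith only [hq]
      · linarith only [hb]
      · linarith only [hd]
      · linarith only [hf0]
      · linarith only [ew]
      · linarith only [eA]
      · linarith only [eB]
      · linarith only [e1]
      · linarith only [et]
      · linarith only [eu]
      · linarith only [ep]
      · linarith only [ea]
      · linarith only [ec]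
      · linarith only [ee]
      · linarith only [eq]
      · linarith only [eb]
      · linarith only [ed]
      · linarith only [ef]
      · linarith only [j1]
      · linarith only [jx]
      · linarith only [hz]
      · linarith only [m1]
    )
  simp only [exadd, exmul, exc, ew2, ew3, ew5, ew7, ew11, ew13, ew17, ew19, ew23, ew29, ew31] at h
  push_cast at h
  linarith only [h, hg, hf]

/-- with a main cell: pattern M1 -/
theorem dbM1 {w A B p q x E F r s z f g : ℝ} (c : CP w A B p q) (d : CP x E F r s)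
    (j1 : 43 / 100 ≤ fv x E F r s) (jx : 149 / 200 ≤ x) (hz : 0 ≤ z) (m1 : w + x + z ≤ 1)
    (hg : g ≤ (1 - (w + x + z)) *
      (4 - 2 * (w + x + z) + (w + x + z) ^ 2 - 3 * (w ^ 2 + x ^ 2 + z ^ 2)) / 12)
    (hf : f ≤ z * (1 + z) ^ 2 / 4 - z ^ 3 / 3) (hk : f ≤ 2 / 5) :
    fv w A B p q + fv x E F r s + f + g ≤ 229 / 2000 - 3 / 100 * (1 - B) + 9 / 50 * (A + B - w) + 1 / 100 * (1 - A) -
      21 / 100 * (1 - F) + 53 / 100 * (E + F - x) := by
  rcases le_total w A with k0 | k0 <;> rcases le_total w B with k1 | k1 <;>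
    rcases le_total x E with k2 | k2 <;> rcases le_total x F with k3 | k3
  · exact dbM1r_0 c d j1 jx hz m1 hg hf
  · exact dbM1r_0 c d j1 jx hz m1 hg hf
  · exact dbM1r_0 c d j1 jx hz m1 hg hf
  · exact dbM1r_0 c d j1 jx hz m1 hg hf
  · exact dbM1r_0 c d j1 jx hz m1 hg hf
  · exact dbM1r_0 c d j1 jx hz m1 hg hf
  · exact dbM1r_0 c d j1 jx hz m1 hg hf
  · exact dbM1r_0 c d j1 jx hz m1 hg hf
  · exact dbM1r_0 c d j1 jx hz m1 hg hf
  · exact dbM1r_0 c d j1 jx hz m1 hg hf
  · exact dbM1r_0 c d j1 jx hz m1 hg hf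
  · exact dbM1r_0 c d j1 jx hz m1 hg hf
  · exfalso
    linarith only [c.hw, c.hA, c.hB, c.h1, c.ht, c.hu, d.hw, d.hA, d.hB, d.h1, d.ht, d.hu, m1, jx, hz, k0, k1, k2, k3]
  · exfalso
    linarith only [c.hw, c.hA, c.hB, c.h1, c.ht, c.hu, d.hw, d.hA, d.hB, d.h1, d.ht, d.hu, m1, jx, hz, k0, k1, k2, k3]
  · exfalso
    linarith only [c.hw, c.hA, c.hB, c.h1, c.ht, c.hu, d.hw, d.hA, d.hB, d.h1, d.ht, d.hu, m1, jx, hz, k0, k1, k2, k3]
  · exfalso
    linarith only [c.hw, c.hA, c.hB, c.h1, c.ht, c.hu, d.hw, d.hA, d.hB, d.h1, d.ht, d.hu, m1, jx, hz, k0, k1, k2, k3]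

end Pool.Agent.Helper32.TS
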