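import Pool.Agent.Helper32.TS.RpCell
import Pool.Agent.Helper32.TS.RpNBD2
import Pool.Agent.Helper32.TS.RpNBDc
import Pool.Agent.Helper32.TS.RpNBDd
import Pool.Agent.Helper32.TS.RpNBD0
import Pool.Agent.Helper32.TS.RpNBC2
import Pool.Agent.Helper32.TS.RpNBCc
import Pool.Agent.Helper32.TS.RpNBCd
import Pool.Agent.Helper32.TS.RpNBC0
import Pool.Agent.Helper32.TS.RpNBM
import Pool.Agent.Helper32.TS.RpDBD2
import Pool.Agent.Helper32.TS.RpDBDc
import Pool.Agent.Helper32.TS.RpDBDd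
import Pool.Agent.Helper32.TS.RpDBD0
import Pool.Agent.Helper32.TS.RpDBC2
import Pool.Agent.Helper32.TS.RpDBCc
import Pool.Agent.Helper32.TS.RpDBCd
import Pool.Agent.Helper32.TS.RpDBC0
import Pool.Agent.Helper32.TS.RpDBM

/-!
# `OL2Brp`: the blocks `NB` and `DB` of the class of the main column, in real variables
-/

set_option autoImplicit false

namespace Pool.Agent.Helper32.TS

open Pool.Agent.Helper74.TS

/-- the third cell: none, or with its supports -/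
def Thr (w A x E fz : ℝ) : Prop := fz = 0 ∨ ∃ z G H, Cell3 z G H ∧ fz = vl z G H ∧
  (w + G ≤ 1 ∨ z + A ≤ 1) ∧ (x + H ≤ 1 ∨ z + E ≤ 1)

theorem bb_mono {z u : ℝ} (z0 : 0 ≤ z) (h : z ≤ u) (u1 : u ≤ 1) :
    z * (1 + z) ^ 2 / 4 - z ^ 3 / 3 ≤ u * (1 + u) ^ 2 / 4 - u ^ 3 / 3 := by
  have e : 0 ≤ (u - z) * (1 / 4 + (u + z) / 2 - (u ^ 2 + u * z + z ^ 2) / 12) := by
    refine mul_nonneg (by linarith) ?_
    nlinarith [mul_nonneg z0 (by linarith : 0 ≤ 1 - u), mul_nonneg z0 z0,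
      mul_nonneg z0 (by linarith : 0 ≤ u - z)]
  nlinarith

/-- bounds for the volume of the third cell, from the supports -/
structure F2 (w x f : ℝ) : Prop where
  g : w ≤ x → f ≤ (1 - x) * ((1 - x) + (1 - w)) ^ 2 / 4 - (1 - x) ^ 3 / 3
  h : x ≤ w → f ≤ (1 - w) * ((1 - w) + (1 - x)) ^ 2 / 4 - (1 - w) ^ 3 / 3

structure F1 (w E f : ℝ) : Prop where
  E1 : E ≤ 1
  i : E ≤ w → f ≤ (1 - E) * (1 - w) - (1 - w) ^ 3 / 3
  j : w ≤ E → E ≤ 2 * w → f ≤ (1 - E) * (1 - w) * (1 + (1 - E) - (1 - w)) - (1 - E) ^ 3 / 3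
  l : w ≤ E → f ≤ (1 - E) * (1 + (1 - E)) ^ 2 / 4 - (1 - E) ^ 3 / 3

structure F0 (A E f : ℝ) : Prop where
  A1 : A ≤ 1
  E1 : E ≤ 1
  n : f ≤ (1 - E) * (1 + (1 - E)) ^ 2 / 4 - (1 - E) ^ 3 / 3
  o : f ≤ (1 - A) * (1 + (1 - A)) ^ 2 / 4 - (1 - A) ^ 3 / 3

theorem F1.of {z G H w E : ℝ} (c : Cell3 z G H) (w0 : 0 ≤ w) (E0 : 0 ≤ E) (h1 : w + G ≤ 1)
    (h2 : z + E ≤ 1) : F1 w E (vl z G H) := by
  have z0 := c.w0
  have G0 := c.A0
  obtain ⟨t1, t2, t3⟩ := vl_one c (by linarith : G ≤ 1 - w) (by linarith)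
    (by linarith : z ≤ 1 - E) (by linarith)
  exact ⟨by linarith, fun k => t1 (by linarith), fun k k' => t2 (by linarith) (by linarith),
    fun k => t3 (by linarith)⟩

/-- the four kinds of the third cell -/
theorem Thr.cases {w A x E f : ℝ} (w0 : 0 ≤ w) (w1 : w ≤ 1) (x0 : 0 ≤ x) (x1 : x ≤ 1)
    (A0 : 0 ≤ A) (E0 : 0 ≤ E) (h : Thr w A x E f) :
    F2 w x f ∨ F1 w E f ∨ F1 x A f ∨ F0 A E f := by
  rcases h with rfl | ⟨z, G, H, c, rfl, m, n⟩
  · left
    constructor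
    · intro k
      have e1 : 0 ≤ (1 - x) * ((1 - w) - (1 - x)) * ((1 - w) + 3 * (1 - x)) :=
        mul_nonneg (mul_nonneg (by linarith) (by linarith)) (by linarith)
      have e2 : 0 ≤ (1 - x) ^ 3 := pow_nonneg (by linarith) 3
      nlinarith
    · intro k
      have e1 : 0 ≤ (1 - w) * ((1 - x) - (1 - w)) * ((1 - x) + 3 * (1 - w)) :=
        mul_nonneg (mul_nonneg (by linarith) (by linarith)) (by linarith)
      have e2 : 0 ≤ (1 - w) ^ 3 := pow_nonneg (by linarith) 3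
      nlinarith
  · have z0 := c.w0
    rcases m with m | m <;> rcases n with n | n
    · left
      obtain ⟨t1, t2⟩ := vl_two c (by linarith : G ≤ 1 - w) (by linarith : H ≤ 1 - x)
      exact ⟨fun k => t2 (by linarith), fun k => t1 (by linarith)⟩
    · right; left
      exact F1.of c w0 E0 m n
    · right; right; left
      rw [vl_comm]
      exact F1.of ⟨z0, c.w1, c.B0, c.A0, by linarith [c.lo], by linarith [c.hi]⟩ x0 A0 n m
    · right; right; right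
      have t := vl_any c
      exact ⟨by linarith, by linarith, t.trans (bb_mono z0 (by linarith) (by linarith)),
        t.trans (bb_mono z0 (by linarith) (by linarith))⟩

section

variable {w A B x E F f : ℝ}

/-- **The block `NB` without main cell.** -/
theorem nb_real (c : Cell3 w A B) (d : Cell3 x E F) (hc : 9 / 20 ≤ A + B - w)
    (hd : 9 / 20 ≤ E + F - x) (hs : w + F ≤ 1 ∨ x + B ≤ 1) (hz : Thr w A x E f)
    (j : vl x E F ≤ 43 / 100) (hk : f ≤ 2 / 5) :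
    vl w A B + vl x E F + f ≤ 19 / 50 - 2 / 25 * (1 - B) + 21 / 50 * (A + B - w) +
      3 / 25 * (1 - A) - 77 / 500 * (1 - F) + 11 / 100 * (E + F - x) := by
  have cp := cp_of c hc
  have dp := cp_of d hd
  rw [vl_fv x E F] at j
  rw [vl_fv w A B, vl_fv x E F]
  rcases hz.cases c.w0 c.w1 d.w0 d.w1 c.A0 d.A0 with k | k | k | k <;> rcases hs with hs | hs
  · exact nbD2 cp dp j hs k.g k.h hk
  · exact nbC2 cp dp j hs k.g k.h hk
  · exact nbDc cp dp j hs k.E1 k.i k.j k.l hk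
  · exact nbCc cp dp j hs k.E1 k.i k.j k.l hk
  · exact nbDd cp dp j hs k.E1 k.i k.j k.l hk
  · exact nbCd cp dp j hs k.E1 k.i k.j k.l hk
  · exact nbD0 cp dp j hs k.E1 k.A1 k.n k.o hk
  · exact nbC0 cp dp j hs k.E1 k.A1 k.n k.o hk

/-- **The block `DB` without main cell.** -/
theorem db_real (c : Cell3 w A B) (d : Cell3 x E F) (hc : 9 / 20 ≤ A + B - w)
    (hd : 9 / 20 ≤ E + F - x) (hs : w + F ≤ 1 ∨ x + B ≤ 1) (hz : Thr w A x E f)
    (j : 43 / 100 ≤ vl x E F) (jx : 149 / 200 ≤ x) (hk : f ≤ 2 / 5) :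
    vl w A B + vl x E F + f ≤ 229 / 2000 - 3 / 100 * (1 - B) + 9 / 50 * (A + B - w) +
      1 / 100 * (1 - A) - 21 / 100 * (1 - F) + 53 / 100 * (E + F - x) := by
  have cp := cp_of c hc
  have dp := cp_of d hd
  rw [vl_fv x E F] at j
  rw [vl_fv w A B, vl_fv x E F]
  rcases hz.cases c.w0 c.w1 d.w0 d.w1 c.A0 d.A0 with k | k | k | k <;> rcases hs with hs | hs
  · exact dbD2 cp dp j jx hs k.g k.h hk
  · exact dbC2 cp dp j jx hs k.g k.h hk
  · exact dbDc cp dp j jx hs k.E1 k.i k.j k.l hk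
  · exact dbCc cp dp j jx hs k.E1 k.i k.j k.l hk
  · exact dbDd cp dp j jx hs k.E1 k.i k.j k.l hk
  · exact dbCd cp dp j jx hs k.E1 k.i k.j k.l hk
  · exact dbD0 cp dp j jx hs k.E1 k.A1 k.n k.o hk
  · exact dbC0 cp dp j jx hs k.E1 k.A1 k.n k.o hk

/-- the width of a large cell -/
theorem jx_of (d : Cell3 x E F) (j : 43 / 100 ≤ vl x E F) : 149 / 200 ≤ x := by
  by_contra hc
  have hc' : x ≤ 149 / 200 := (not_le.1 hc).le
  have e1 := vl_any d
  have e2 := bb_mono d.w0 hc' (by norm_num)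
  norm_num at e2
  linarith

end

end Pool.Agent.Helper32.TS
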