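import Pool.Agent.Helper32.TS.RsFam
import Pool.Agent.Helper32.TS.RsRowP
import Pool.Agent.Helper32.TS.RsRowR
import Pool.Agent.Helper32.TS.RsRowS
import Pool.Agent.Helper32.TS.GainC
import Pool.Agent.Helper74.TS.OneLowE
import Pool.Agent.Helper78.TS.Col2

/-!
# `OL2Brs`: the witness of `p` in the column `r`, the witness of `r` in the column `s`

Row decoupling: `VV A a ≤ hh1 (u^p_a) + hh2 (u^r_a) + 507/1000 * d_p`, and bounds for the three good
classes with prices for the columns.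
-/

set_option autoImplicit false

namespace Pool.Agent.Helper32.TS

open Pool.Agent.Helper84.TS Pool.Agent.Helper23.TS Pool.Agent.Helper36.TS Pool.Agent.Helper44.TS
  Pool.Agent.Helper5.TS Pool.Agent.Helper8.TS Pool.Agent.Helper74.TS Pool.Agent.Helper78.TS

theorem hh1_mono {s t : ℝ} (h : 9 / 20 ≤ s) (h' : s ≤ t) : hh1 s ≤ hh1 t := by
  unfold hh1
  nlinarith [mul_nonneg (by linarith : 0 ≤ t - s) (by linarith : 0 ≤ s + t - 9 / 10)]

theorem hh2_mono {s t : ℝ} (h : 9 / 20 ≤ s) (h' : s ≤ t) : hh2 s ≤ hh2 t := by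
  unfold hh2
  nlinarith [mul_nonneg (by linarith : 0 ≤ t - s) (by linarith : 0 ≤ s + t - 9 / 10)]

/-- the third cell: none, or with its supports -/
def Third (w B x fz : ℝ) : Prop := fz = 0 ∨ ∃ z G H, Cell3 z G H ∧ fz = vl z G H ∧ x + G ≤ 1 ∧
  (w + H ≤ 1 ∨ z + B ≤ 1)

/-- the class without main cell -/
theorem class_real {w A B x E F d fz : ℝ} (q : CD w A B x E F d) (hs : w + E ≤ 1 ∨ x + A ≤ 1)
    (hz : Third w B x fz) : vl w A B + vl x E F + fz ≤
      hh1 (A + B - w) + hh2 (E + F - x) + 507 / 1000 * d := by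
  have w1 := q.c.w1
  have w0 := q.c.w0
  have x1 := q.D.w1
  have x0 := q.D.w0
  have B0 := q.c.B0
  have two : ∀ f : ℝ, (1 - x ≤ 1 - w → f ≤ (1 - x) * ((1 - x) + (1 - w)) ^ 2 / 4
      - (1 - x) ^ 3 / 3) → (1 - w ≤ 1 - x → f ≤ (1 - w) * ((1 - w) + (1 - x)) ^ 2 / 4
      - (1 - w) ^ 3 / 3) → vl w A B + vl x E F + f ≤
      hh1 (A + B - w) + hh2 (E + F - x) + 507 / 1000 * d := by
    intro f f1 f2
    rcases le_total w x with k | k
    · have e1 := f1 (by linarith)
      rcases hs with hs | hs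
      · have := f_s2g q hs k
        linarith
      · have := f_s4g q hs k
        linarith
    · have e1 := f2 (by linarith)
      rcases hs with hs | hs
      · have := f_s2h q hs k
        linarith
      · have := f_s4h q hs k
        linarith
  rcases hz with rfl | ⟨z, G, H, c, rfl, m, n | n⟩
  · refine two 0 (fun k => ?_) fun k => ?_
    · have e1 : 0 ≤ (1 - x) * ((1 - w) - (1 - x)) * ((1 - w) + 3 * (1 - x)) :=
        mul_nonneg (mul_nonneg (by linarith) (by linarith)) (by linarith)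
      have e2 : 0 ≤ (1 - x) ^ 3 := pow_nonneg (by linarith) 3
      nlinarith
    · have e1 : 0 ≤ (1 - w) * ((1 - x) - (1 - w)) * ((1 - x) + 3 * (1 - w)) :=
        mul_nonneg (mul_nonneg (by linarith) (by linarith)) (by linarith)
      have e2 : 0 ≤ (1 - w) ^ 3 := pow_nonneg (by linarith) 3
      nlinarith
  · obtain ⟨t1, t2⟩ := vl_two c (by linarith : G ≤ 1 - x) (by linarith : H ≤ 1 - w)
    exact two _ t1 t2
  · have z0 := c.w0
    obtain ⟨t1, t2, t3⟩ := vl_one c (by linarith : G ≤ 1 - x) (by linarith)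
      (by linarith : z ≤ 1 - B) (by linarith)
    rcases le_total B x with k | k
    · have e1 := t1 (by linarith)
      rcases hs with hs | hs
      · have := f_s3i q hs (by linarith) k
        linarith
      · have := f_s5i q hs (by linarith) k
        linarith
    · rcases hs with hs | hs
      · rcases le_total (2 * (1 - x)) (1 + (1 - B)) with k' | k'
        · have e1 := t2 (by linarith) k'
          have := f_s3v q hs (by linarith) k k'
          linarith
        · have e1 := t3 (by linarith)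
          have := f_s3x q hs (by linarith) k k'
          linarith
      · have e1 := t3 (by linarith)
        have := f_s5x q hs (by linarith) k
        linarith

section

variable {A : Fin 4 → Fin 4 → Option (Fin 4 → ℝ)} {P : Fin 4 → Fin 4 → ℝ} {a p r s : Fin 4}

/-- the main cell with two supports -/
theorem fm_two {M : Fin 4 → ℝ} (hM : IsCell a M) (hn : [a, r, s, p].Nodup)
    (hm : ∀ m, m ≠ a → -M m ≤ 1) (hd : 3 / 5 ≤ M a - 1) {w x : ℝ} (w0 : 0 ≤ w) (x0 : 0 ≤ x)
    (hw : w ≤ M r + (M a - 1)) (hx : x ≤ M s + (M a - 1)) :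
    fcl a M ≤ 11 / 25 * (1 - x - w) ∧ w + x ≤ 1 := by
  obtain ⟨t, ht⟩ : ∃ t, t = (M r + (M a - 1)) + (M s + (M a - 1)) := ⟨_, rfl⟩
  obtain ⟨t0, t1, f1, f2⟩ := vol_two hM hn hm hd (by linarith) (by linarith) ht
  refine ⟨?_, by linarith⟩
  have e1 : fcl a M ≤ 11 / 25 * (1 - t) := by
    rcases le_total t (3 / 5) with h' | h'
    · have := f1 h'
      nlinarith
    · have := f2 h'
      have e2 : 0 ≤ (1 - t) * ((t - 3 / 5) * (1 - t)) :=
        mul_nonneg (by linarith) (mul_nonneg (by linarith) (by linarith))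
      nlinarith
  linarith

private theorem mz32 {δ z t f v : ℝ} (h1 : 3 / 5 ≤ δ) (h2 : δ ≤ 1) (z0 : 0 ≤ z)
    (ht : z + 2 * (1 - δ) ≤ t) (hf : f ≤ (1 - δ) * (1 - 2 / 3 * δ))
    (hv : v ≤ z * (1 + z) ^ 2 / 4 - z ^ 3 / 3) : f + v ≤ 11 / 25 * t + t ^ 2 / 2 := by
  have e1 : (1 - δ) * (1 - 2 / 3 * δ) ≤ 3 / 5 * (1 - δ) := by nlinarith
  have e2 : z ^ 2 ≤ t ^ 2 := pow_le_pow_left₀ z0 (by linarith) 2
  have e3 : 0 ≤ z ^ 3 := by positivity
  nlinarith

/-- **The low class.** -/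
theorem rs_class (h : OLB A P a) (hn : [a, p, r, s].Nodup) {C D : Fin 4 → ℝ}
    (kC : KB A P a r p s C) (kD : KB A P a s r p D) (hd : P p p - 1 ≤ 3 / 20)
    (hc : -P r s ≤ (P p p - 1) + (P r r - 1) - 9 / 20) :
    VV A a ≤ hh1 (-P p a) + hh2 (-P r a) + 507 / 1000 * (P p p - 1) := by
  have n := nodup_ne hn
  have nr : [a, r, p, s].Nodup := perm_jk hn
  have ns : [a, s, p, r].Nodup := by
    clear * - hn; revert hn; revert a p r s; decide
  have nM : [a, r, s, p].Nodup := by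
    clear * - hn; revert hn; revert a p r s; decide
  have hrs : r ≠ s := by
    clear * - hn; revert hn; revert a p r s; decide
  have hpr : p ≠ r := by
    clear * - hn; revert hn; revert a p r s; decide
  have hps : p ≠ s := by
    clear * - hn; revert hn; revert a p r s; decide
  obtain ⟨oC1, oC2, oC3⟩ := kC.out h
  obtain ⟨oD1, oD2, oD3⟩ := kD.out h
  obtain ⟨w, hw⟩ : ∃ w, w = 2 + C r := ⟨_, rfl⟩
  obtain ⟨α, hα⟩ : ∃ α, α = 1 - (C s + (C a - 1)) := ⟨_, rfl⟩
  obtain ⟨β, hβ⟩ : ∃ β, β = 1 - (C p + (C a - 1)) := ⟨_, rfl⟩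
  obtain ⟨x, hx⟩ : ∃ x, x = 2 + D s := ⟨_, rfl⟩
  obtain ⟨E, hE⟩ : ∃ E, E = 1 - (D r + (D a - 1)) := ⟨_, rfl⟩
  obtain ⟨F, hF⟩ : ∃ F, F = 1 - (D p + (D a - 1)) := ⟨_, rfl⟩
  obtain ⟨vC, c1, c2, c3, c4, c5, c6, eC⟩ := cell_num h nr kC.hC hw hα hβ
  obtain ⟨vD, d1, d2, d3, d4, d5, d6, eD⟩ := cell_num h ns kD.hC hx hE hF
  have kC1 := kC.hd
  have kD1 := kD.hd
  have kD2 := kD.cap
  have q : CD w α β x E F (P p p - 1) :=
    ⟨⟨c1.le, c2, c3, c4, c5, c6⟩, ⟨d1.le, d2, d3, d4, d5, d6⟩, by linarith, by linarith,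
      h.d0 n.1, hd, by linarith⟩
  have m1 : hh1 (α + β - w) ≤ hh1 (-P p a) := hh1_mono q.t (by linarith)
  have m2 : hh2 (E + F - x) ≤ hh2 (-P r a) := hh2_mono q.t' (by linarith)
  have hs : w + E ≤ 1 ∨ x + α ≤ 1 := by
    rcases support h.of kC.hC kD.hC n.2.1 n.2.2 hrs with e | e
    · right
      linarith
    · left
      linarith
  have hz : Third w β x (fo a (A a p)) ∧ ∀ Z, A a p = some Z → ∃ G H, Cell3 (2 + Z p) G H ∧
      fo a (A a p) = vl (2 + Z p) G H := by
    rcases hZ : A a p with _ | Z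
    · exact ⟨Or.inl (by simp only [fo]), fun Z e => absurd e (by simp)⟩
    · obtain ⟨z, hz⟩ : ∃ z, z = 2 + Z p := ⟨_, rfl⟩
      obtain ⟨G, hG⟩ : ∃ G, G = 1 - (Z s + (Z a - 1)) := ⟨_, rfl⟩
      obtain ⟨H, hH⟩ : ∃ H, H = 1 - (Z r + (Z a - 1)) := ⟨_, rfl⟩
      obtain ⟨vZ, z1, z2, z3, z4, z5, z6, eZ⟩ := cell_num h hn hZ hz hG hH
      rw [hZ] at vZ
      refine ⟨Or.inr ⟨z, G, H, ⟨z1.le, z2, z3, z4, z5, z6⟩, vZ, ?_, ?_⟩, ?_⟩
      · rcases support h.of hZ kD.hC n.1 n.2.2 hps with e | e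
        · linarith
        · exfalso
          linarith
      · rcases support h.of hZ kC.hC n.1 n.2.1 hpr with e | e
        · left
          linarith
        · right
          linarith
      · intro Z' e
        have e' : Z = Z' := Option.some.inj e
        rw [← e', ← hz]
        exact ⟨G, H, ⟨z1.le, z2, z3, z4, z5, z6⟩, vZ⟩
  rw [Pool.Agent.Helper44.TS.VV_eq hn, vC, vD]
  rcases h.low with h0 | ⟨M, hM, hdM⟩
  · have := class_real q hs hz.1
    have e0 : fo a (A a a) = 0 := by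
      rw [h0]
      rfl
    linarith
  · have kc := far_key h.of n.2.1 hM kC.hC
    have kd := far_key h.of n.2.2 hM kD.hC
    have cM := h.of.cell a a M hM
    have mM := h.of.main a M hM
    obtain ⟨f1, f2⟩ := fm_two cM nM mM hdM c1.le d1.le (by linarith [kc.2.2] : w ≤ _)
      (by linarith [kd.2.2] : x ≤ _)
    have fm := f_smm q f2
    have eM : fo a (A a a) = fcl a M := by
      rw [hM]
      rfl
    have key : fo a (A a a) + fo a (A a p) ≤ 11 / 25 * (1 - x - w) + (1 - x - w) ^ 2 / 2 := by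
      rcases hZ : A a p with _ | Z
      · have e0 : fo a (none : Option (Fin 4 → ℝ)) = 0 := rfl
        have := sq_nonneg (1 - x - w)
        rw [eM, e0]
        linarith
      · have kz := far_key h.of n.1 hM hZ
        obtain ⟨G, H, c, e⟩ := hz.2 Z hZ
        rw [hZ] at e
        obtain ⟨l1, l2, l3, l4, l5, l6, l7, l8, l9⟩ := cell_lin cM nM
        rw [eM, e]
        exact mz32 hdM (by linarith) kz.1.le (by linarith [kc.2.2, kd.2.2, kz.2.2])
          (main_d cM mM) (vl_any c)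
    linarith

end

end Pool.Agent.Helper32.TS
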