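import Pool.Agent.Helper32.TS.RpCls
import Pool.Agent.Helper32.TS.RsMain
import Pool.Agent.Helper92.TS.MainThree
import Pool.Agent.Helper92.TS.RpEnd

/-!
# `OL2Brp`: the blocks `NB` and `DB` of the class of the main column
-/

set_option autoImplicit false

namespace Pool.Agent.Helper32.TS

open Pool.Agent.Helper84.TS Pool.Agent.Helper23.TS Pool.Agent.Helper36.TS Pool.Agent.Helper44.TS
  Pool.Agent.Helper5.TS Pool.Agent.Helper8.TS Pool.Agent.Helper74.TS Pool.Agent.Helper78.TS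
  Pool.Agent.Helper92.TS

section

variable {A : Fin 4 → Fin 4 → Option (Fin 4 → ℝ)} {P : Fin 4 → Fin 4 → ℝ} {a p r s : Fin 4}
  {C D : Fin 4 → ℝ}

/-- the class in real numbers: no main cell, or a main cell (with or without third cell) -/
theorem rp_split (h : OLB A P a) (hn : [a, p, r, s].Nodup) (kC : KB A P a r p s C)
    (kD : KB A P a p r s D) {w α β x ε φ : ℝ} (hw : w = 2 + C r) (hα : α = 1 - (C s + (C a - 1)))
    (hβ : β = 1 - (C p + (C a - 1))) (hx : x = 2 + D p) (hε : ε = 1 - (D s + (D a - 1)))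
    (hφ : φ = 1 - (D r + (D a - 1))) :
    Cell3 w α β ∧ Cell3 x ε φ ∧ 9 / 20 ≤ α + β - w ∧ 9 / 20 ≤ ε + φ - x ∧
      fo a (A a r) = vl w α β ∧ fo a (A a p) = vl x ε φ ∧
      ((fo a (A a a) = 0 ∧ (w + φ ≤ 1 ∨ x + β ≤ 1) ∧ Thr w α x ε (fo a (A a s))) ∨
        (fo a (A a s) = 0 ∧ w + x ≤ 1 ∧ fo a (A a a) ≤ 11 / 25 * (1 - w - x)) ∨
        ∃ z, 0 ≤ z ∧ w + x + z ≤ 1 ∧ fo a (A a s) ≤ z * (1 + z) ^ 2 / 4 - z ^ 3 / 3 ∧
          fo a (A a a) ≤ (1 - (w + x + z)) * (4 - 2 * (w + x + z) + (w + x + z) ^ 2 -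
            3 * (w ^ 2 + x ^ 2 + z ^ 2)) / 12) := by
  have n := nodup_ne hn
  have nr : [a, r, p, s].Nodup := perm_jk hn
  have ns : [a, s, p, r].Nodup := by
    clear * - hn; revert hn; revert a p r s; decide
  have hrs : r ≠ s := by
    clear * - hn; revert hn; revert a p r s; decide
  have hpr : p ≠ r := by
    clear * - hn; revert hn; revert a p r s; decide
  have hps : p ≠ s := by
    clear * - hn; revert hn; revert a p r s; decide
  obtain ⟨cC, eC⟩ := cell3_of h kC.hn kC.hC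
  obtain ⟨cD, eD⟩ := cell3_of h kD.hn kD.hC
  have lC := (cell_lin (h.of.cell a r C kC.hC) kC.hn).1
  have lD := (cell_lin (h.of.cell a p D kD.hC) kD.hn).1
  have dC := kC.hd
  have dD := kD.hd
  rw [← hw, ← hα, ← hβ] at cC eC
  rw [← hx, ← hε, ← hφ] at cD eD
  refine ⟨cC, cD, by linarith, by linarith, eC, eD, ?_⟩
  rcases h.low with h0 | ⟨M, hM, hdM⟩
  · left
    refine ⟨by rw [h0]; rfl, ?_, ?_⟩
    · rcases support h.of kC.hC kD.hC n.2.1 n.1 hpr.symm with e | e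
      · right
        linarith
      · left
        linarith
    · rcases hE : A a s with _ | E
      · exact Or.inl (by simp only [fo])
      · obtain ⟨cE, eE⟩ := cell3_of h ns hE
        rw [hE] at eE
        refine Or.inr ⟨_, _, _, cE, eE, ?_, ?_⟩
        · rcases support h.of kC.hC hE n.2.1 n.2.2 hrs with e | e
          · right
            linarith
          · left
            linarith
        · rcases support h.of kD.hC hE n.1 n.2.2 hps with e | e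
          · right
            linarith
          · left
            linarith
  · right
    have eM : fo a (A a a) = fcl a M := by
      rw [hM]
      rfl
    have kc := far_key h.of n.2.1 hM kC.hC
    have kd := far_key h.of n.1 hM kD.hC
    have cM := h.of.cell a a M hM
    have mM := h.of.main a M hM
    rcases hE : A a s with _ | E
    · left
      obtain ⟨f1, f2⟩ := fm_two cM nr mM hdM cC.w0 cD.w0 (by linarith [kc.2.2] : w ≤ _)
        (by linarith [kd.2.2] : x ≤ _)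
      refine ⟨by simp only [fo], f2, ?_⟩
      rw [eM]
      linarith
    · right
      obtain ⟨cE, eE⟩ := cell3_of h ns hE
      rw [hE] at eE
      have := vl_any cE
      rw [← eE] at this
      obtain ⟨m1, m2⟩ := main_three h.of nr kC.hC kD.hC hE hM
      rw [← hw, ← hx] at m1 m2
      exact ⟨2 + E s, cE.w0, m1, this, m2⟩

theorem rp_NB (h : OLB A P a) (hn : [a, p, r, s].Nodup) (kC : KB A P a r p s C)
    (kD : KB A P a p r s D) (h1 : fo a (A a p) ≤ 43 / 100) (h2 : fo a (A a s) ≤ 2 / 5) :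
    VV A a ≤ 19 / 50 - 2 / 25 * (C p + (C a - 1)) + 21 / 50 * (2 - C a) +
      3 / 25 * (C s + (C a - 1)) - 77 / 500 * (D r + (D a - 1)) + 11 / 100 * (2 - D a) := by
  have lC := (cell_lin (h.of.cell a r C kC.hC) kC.hn).1
  have lD := (cell_lin (h.of.cell a p D kD.hC) kD.hn).1
  obtain ⟨w, hw⟩ : ∃ w, w = 2 + C r := ⟨_, rfl⟩
  obtain ⟨α, hα⟩ : ∃ α, α = 1 - (C s + (C a - 1)) := ⟨_, rfl⟩
  obtain ⟨β, hβ⟩ : ∃ β, β = 1 - (C p + (C a - 1)) := ⟨_, rfl⟩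
  obtain ⟨x, hx⟩ : ∃ x, x = 2 + D p := ⟨_, rfl⟩
  obtain ⟨ε, hε⟩ : ∃ ε, ε = 1 - (D s + (D a - 1)) := ⟨_, rfl⟩
  obtain ⟨φ, hφ⟩ : ∃ φ, φ = 1 - (D r + (D a - 1)) := ⟨_, rfl⟩
  obtain ⟨cC, cD, t1, t2, eC, eD, k⟩ := rp_split h hn kC kD hw hα hβ hx hε hφ
  have goal : ∀ v : ℝ, v ≤ 19 / 50 - 2 / 25 * (1 - β) + 21 / 50 * (α + β - w) +
      3 / 25 * (1 - α) - 77 / 500 * (1 - φ) + 11 / 100 * (ε + φ - x) →
      v ≤ 19 / 50 - 2 / 25 * (C p + (C a - 1)) + 21 / 50 * (2 - C a) +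
      3 / 25 * (C s + (C a - 1)) - 77 / 500 * (D r + (D a - 1)) + 11 / 100 * (2 - D a) := by
    intro v hv
    linarith
  apply goal
  rw [Pool.Agent.Helper44.TS.VV_eq hn, eC, eD]
  rw [eD] at h1
  rcases k with ⟨k1, k2, k3⟩ | ⟨k1, k2, k3⟩ | ⟨z, k1, k2, k3, k4⟩
  · have := nb_real cC cD t1 t2 k2 k3 h1 h2
    linarith
  · have cp := cp_of cC t1
    have dp := cp_of cD t2
    rw [vl_fv x ε φ] at h1
    have := nbM0 cp dp h1 k2 k3
    rw [vl_fv w α β, vl_fv x ε φ]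
    linarith
  · have cp := cp_of cC t1
    have dp := cp_of cD t2
    rw [vl_fv x ε φ] at h1
    have := nbM1 cp dp h1 k1 k2 k4 k3 h2
    rw [vl_fv w α β, vl_fv x ε φ]
    linarith

theorem rp_DB (h : OLB A P a) (hn : [a, p, r, s].Nodup) (kC : KB A P a r p s C)
    (kD : KB A P a p r s D) (h1 : 43 / 100 ≤ fo a (A a p)) (h2 : fo a (A a s) ≤ 2 / 5) :
    VV A a ≤ 229 / 2000 - 3 / 100 * (C p + (C a - 1)) + 9 / 50 * (2 - C a) +
      1 / 100 * (C s + (C a - 1)) - 21 / 100 * (D r + (D a - 1)) + 53 / 100 * (2 - D a) := by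
  have lC := (cell_lin (h.of.cell a r C kC.hC) kC.hn).1
  have lD := (cell_lin (h.of.cell a p D kD.hC) kD.hn).1
  obtain ⟨w, hw⟩ : ∃ w, w = 2 + C r := ⟨_, rfl⟩
  obtain ⟨α, hα⟩ : ∃ α, α = 1 - (C s + (C a - 1)) := ⟨_, rfl⟩
  obtain ⟨β, hβ⟩ : ∃ β, β = 1 - (C p + (C a - 1)) := ⟨_, rfl⟩
  obtain ⟨x, hx⟩ : ∃ x, x = 2 + D p := ⟨_, rfl⟩
  obtain ⟨ε, hε⟩ : ∃ ε, ε = 1 - (D s + (D a - 1)) := ⟨_, rfl⟩
  obtain ⟨φ, hφ⟩ : ∃ φ, φ = 1 - (D r + (D a - 1)) := ⟨_, rfl⟩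
  obtain ⟨cC, cD, t1, t2, eC, eD, k⟩ := rp_split h hn kC kD hw hα hβ hx hε hφ
  have goal : ∀ v : ℝ, v ≤ 229 / 2000 - 3 / 100 * (1 - β) + 9 / 50 * (α + β - w) +
      1 / 100 * (1 - α) - 21 / 100 * (1 - φ) + 53 / 100 * (ε + φ - x) →
      v ≤ 229 / 2000 - 3 / 100 * (C p + (C a - 1)) + 9 / 50 * (2 - C a) +
      1 / 100 * (C s + (C a - 1)) - 21 / 100 * (D r + (D a - 1)) + 53 / 100 * (2 - D a) := by
    intro v hv
    linarith
  apply goal
  rw [Pool.Agent.Helper44.TS.VV_eq hn, eC, eD]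
  rw [eD] at h1
  have jx := jx_of cD h1
  rcases k with ⟨k1, k2, k3⟩ | ⟨k1, k2, k3⟩ | ⟨z, k1, k2, k3, k4⟩
  · have := db_real cC cD t1 t2 k2 k3 h1 jx h2
    linarith
  · have cp := cp_of cC t1
    have dp := cp_of cD t2
    rw [vl_fv x ε φ] at h1
    have := dbM0 cp dp h1 jx k2 k3
    rw [vl_fv w α β, vl_fv x ε φ]
    linarith
  · have cp := cp_of cC t1
    have dp := cp_of cD t2
    rw [vl_fv x ε φ] at h1
    have := dbM1 cp dp h1 jx k1 k2 k4 k3 h2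
    rw [vl_fv w α β, vl_fv x ε φ]
    linarith

/-- **`OL2Brp`.** -/
theorem ol2Brp : OL2Brp :=
  ol2Brp_of_NB_DB (fun _ _ _ _ _ _ _ _ h hn kC kD h1 h2 => rp_NB h hn kC kD h1 h2)
    fun _ _ _ _ _ _ _ _ h hn kC kD h1 h2 => rp_DB h hn kC kD h1 h2

end

end Pool.Agent.Helper32.TS
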