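import Pool.Agent.Helper32.TS.RsMain

/-!
# `OL2Brs`: the end
-/

set_option autoImplicit false

namespace Pool.Agent.Helper32.TS

open Pool.Agent.Helper84.TS Pool.Agent.Helper23.TS Pool.Agent.Helper36.TS Pool.Agent.Helper44.TS
  Pool.Agent.Helper5.TS Pool.Agent.Helper8.TS Pool.Agent.Helper74.TS Pool.Agent.Helper78.TS

/-- **`OL2Brs`** -/
theorem ol2Brs : OL2Brs := by
  intro A P a p r s C D h hn hsm kC kD ks hs ho
  have hp : 9 / 20 ≤ -P p a := by linarith [(kC.out h).2.1, kC.hd]
  have hr : 9 / 20 ≤ -P r a := by linarith [(kD.out h).2.1, kD.hd]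
  rcases le_or_gt (3 / 20) (P p p - 1) with g1 | g1
  · exact h.two_dp hn hp hr hs ho g1
  rcases le_or_gt (9 / 25) (P s s - 1) with g2 | g2
  · exact h.two_ds hn hp hr hs ho g2
  have hc := h.cap_rs hn hp hr ho
  have n := nodup_ne hn
  have va := rs_class h hn kC kD g1.le hc
  unfold hh1 hh2 at va
  have e : ∑ i, VV A i = VV A a + VV A p + VV A r + VV A s := sum4 hn _
  have n1 : [a, p, s, r].Nodup := by
    clear * - hn; revert hn; revert a p r s; decide
  have n2 : [a, r, s, p].Nodup := by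
    clear * - hn; revert hn; revert a p r s; decide
  have np : [p, a, r, s].Nodup := by
    clear * - hn; revert hn; revert a p r s; decide
  have nr : [r, a, p, s].Nodup := by
    clear * - hn; revert hn; revert a p r s; decide
  have ns : [s, a, p, r].Nodup := by
    clear * - hn; revert hn; revert a p r s; decide
  have c2 := h.pair n1
  rw [min_eq_right (by linarith : -P s a ≤ -P p a)] at c2
  have c3 := h.pair n2
  rw [min_eq_right (by linarith : -P s a ≤ -P r a)] at c3
  have Dp : 0 ≤ 3 / 20 + (-1) * (P p p - 1) ∧ 0 ≤ (-9 / 20) + 1 * (-P p a) :=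
    ⟨by linarith, by linarith⟩
  have Dr : 0 ≤ (-9 / 20) + 1 * (-P r a) ∧
      0 ≤ (-3 / 10) + 1 * (P r r - 1) + (-1) * (-P r s) := ⟨by linarith, by linarith⟩
  have Ds : 0 ≤ 9 / 25 + (-1) * (P s s - 1) ∧ 0 ≤ 9 / 20 + (-1) * (-P s a) :=
    ⟨by linarith, by linarith⟩
  have hwp := fun j F => h.hw p j F n.1
  have hwr := fun j F => h.hw r j F n.2.1
  have hws := fun j F => h.hw s j F n.2.2
  rw [e]
  rcases le_total (-P s r) (-P p r) with h1 | h1
  · rw [min_eq_right h1] at c2
    have vp := row_gen rsp1 h.of np (h.mn p n.1) (h.hd p n.1) hwp Dp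
    have vr := row_gen rsr1 h.of nr (h.mn r n.2.1) (h.hd r n.2.1) hwr Dr
    have vs := row_gen rss1 h.of ns (h.mn s n.2.2) (h.hd s n.2.2) hws Ds
    beta_reduce at vp vr vs
    linarith
  · rw [min_eq_left h1] at c2
    rcases le_total (-P r p) (-P s p) with h2 | h2
    · rw [min_eq_left h2] at c3
      have vp := row_gen rsp0 h.of np (h.mn p n.1) (h.hd p n.1) hwp Dp
      have vr := row_gen rsr0 h.of nr (h.mn r n.2.1) (h.hd r n.2.1) hwr Dr
      have vs := row_gen rss0 h.of ns (h.mn s n.2.2) (h.hd s n.2.2) hws Ds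
      beta_reduce at vp vr vs
      linarith
    · rw [min_eq_right h2] at c3
      have vp := row_gen rsp2 h.of np (h.mn p n.1) (h.hd p n.1) hwp Dp
      have vr := row_gen rsr2 h.of nr (h.mn r n.2.1) (h.hd r n.2.1) hwr Dr
      have vs := row_gen rss2 h.of ns (h.mn s n.2.2) (h.hd s n.2.2) hws Ds
      beta_reduce at vp vr vs
      linarith

end Pool.Agent.Helper32.TS
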