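import Pool.Agent.Helper32.TS.RsCls1
import Pool.Agent.Helper32.TS.RsCls2
import Pool.Agent.Helper32.TS.RsCls3
import Pool.Agent.Helper32.TS.RsCls4
import Pool.Agent.Helper32.TS.RsZ

/-!
# `OL2Brs`: the inequalities for the low class, in real variables
-/

set_option autoImplicit false

namespace Pool.Agent.Helper32.TS

open Pool.Agent.Helper74.TS

/-- the price of `u^p_a` -/
noncomputable def hh1 (t : ℝ) : ℝ := 101 / 200 - 9 / 125 * t + 37 / 125 * t ^ 2

/-- the price of `u^r_a` -/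
noncomputable def hh2 (t : ℝ) : ℝ := -(127 / 500) * t + 283 / 1000 * t ^ 2

/-- the numbers of the two witness cells -/
structure CD (w A B x E F d : ℝ) : Prop where
  c : Cell3 w A B
  D : Cell3 x E F
  t : 9 / 20 ≤ A + B - w
  t' : 9 / 20 ≤ E + F - x
  d0 : 0 ≤ d
  d1 : d ≤ 3 / 20
  F1 : 29 / 20 - d ≤ F

section

variable {w A B x E F d : ℝ}

private theorem vlD32 (q : CD w A B x E F d) :
    vl x E F = x * E * F - x ^ 3 / 3 + (x - E) ^ 3 / 3 := by
  have h1 := q.D.w1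
  have h2 := q.D.hi
  have h3 := q.F1
  have h4 := q.d1
  unfold vl
  rw [max_eq_left (by linarith : 0 ≤ x - E), max_eq_right (by linarith : x - F ≤ 0)]
  ring

private theorem cc32 (q : CD w A B x E F d) :
    0 ≤ E ∧
    0 ≤ (F - 13 / 10) ∧
    0 ≤ (1 - x) ∧
    0 ≤ 7 / 10 - (1 - x) - E - (F - 13 / 10) ∧
    0 ≤ -3 / 20 + (1 - x) + E + (F - 13 / 10) ∧
    0 ≤ 1 - (1 - x) ∧
    0 ≤ d ∧
    0 ≤ 3 / 20 - d ∧
    0 ≤ -3 / 20 + (F - 13 / 10) + d ∧
    0 ≤ w ∧
    0 ≤ A ∧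
    0 ≤ B ∧
    0 ≤ 1 - w ∧
    0 ≤ 1 + w - A - B ∧
    0 ≤ -9 / 20 - w + A + B := by
  obtain ⟨⟨c1, c2, c3, c4, c5, c6⟩, ⟨e1, e2, e3, e4, e5, e6⟩, g1, g2, g3, g4, g5⟩ := q
  refine ⟨?_, ?_, ?_, ?_, ?_, ?_, ?_, ?_, ?_, ?_, ?_, ?_, ?_, ?_, ?_⟩ <;> linarith

theorem f_s2g (q : CD w A B x E F d) (m1 : w + E ≤ 1) (m3 : w ≤ x) :
    vl w A B + vl x E F + ((1 - x) * ((1 - x) + (1 - w)) ^ 2 / 4 - (1 - x) ^ 3 / 3) ≤
      hh1 (A + B - w) + hh2 (E + F - x) + 507 / 1000 * d := by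
  obtain ⟨hE, he, hy, ht, ht2, hx, hd, hd2, hd3, hw, hA, hB, hw1, hT, hT2⟩ := cc32 q
  have hD := vlD32 q
  have n1 : 0 ≤ 1 - w - E := by linarith only [m1]
  have n3 : 0 ≤ 1 - w - (1 - x) := by linarith only [m3]
  rw [hD]
  unfold vl hh1 hh2
  rcases le_total w A with k1 | k1 <;> rcases le_total w B with k2 | k2
  · rw [max_eq_right (sub_nonpos.mpr k1), max_eq_right (sub_nonpos.mpr k2)]
    have := cl_s2g00 (w := w) (A := A) (B := B) (y := 1 - x) (E := E) (e := F - 13 / 10) (d := d)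
      hE he hy ht ht2 hx hd hd2 hd3 hw hA hB hw1 hT hT2 (by linarith only [k1]) (by linarith only [k2]) n1 n3
    exact sub_nonneg.1 (this.trans_eq (by ring))
  · rw [max_eq_right (sub_nonpos.mpr k1), max_eq_left (sub_nonneg.mpr k2)]
    have := cl_s2g01 (w := w) (A := A) (B := B) (y := 1 - x) (E := E) (e := F - 13 / 10) (d := d)
      hE he hy ht ht2 hx hd hd2 hd3 hw hA hB hw1 hT hT2 (by linarith only [k1]) (sub_nonneg.mpr k2) n1 n3
    exact sub_nonneg.1 (this.trans_eq (by ring))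
  · rw [max_eq_left (sub_nonneg.mpr k1), max_eq_right (sub_nonpos.mpr k2)]
    have := cl_s2g10 (w := w) (A := A) (B := B) (y := 1 - x) (E := E) (e := F - 13 / 10) (d := d)
      hE he hy ht ht2 hx hd hd2 hd3 hw hA hB hw1 hT hT2 (sub_nonneg.mpr k1) (by linarith only [k2]) n1 n3
    exact sub_nonneg.1 (this.trans_eq (by ring))
  · rw [max_eq_left (sub_nonneg.mpr k1), max_eq_left (sub_nonneg.mpr k2)]
    have := cl_s2g11 (w := w) (A := A) (B := B) (y := 1 - x) (E := E) (e := F - 13 / 10) (d := d)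
      hE he hy ht ht2 hx hd hd2 hd3 hw hA hB hw1 hT hT2 (sub_nonneg.mpr k1) (sub_nonneg.mpr k2) n1 n3
    exact sub_nonneg.1 (this.trans_eq (by ring))

theorem f_s2h (q : CD w A B x E F d) (m1 : w + E ≤ 1) (m3 : x ≤ w) :
    vl w A B + vl x E F + ((1 - w) * ((1 - w) + (1 - x)) ^ 2 / 4 - (1 - w) ^ 3 / 3) ≤
      hh1 (A + B - w) + hh2 (E + F - x) + 507 / 1000 * d := by
  obtain ⟨hE, he, hy, ht, ht2, hx, hd, hd2, hd3, hw, hA, hB, hw1, hT, hT2⟩ := cc32 q
  have hD := vlD32 q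
  have n1 : 0 ≤ 1 - w - E := by linarith only [m1]
  have n3 : 0 ≤ -1 + w + (1 - x) := by linarith only [m3]
  rw [hD]
  unfold vl hh1 hh2
  rcases le_total w A with k1 | k1 <;> rcases le_total w B with k2 | k2
  · rw [max_eq_right (sub_nonpos.mpr k1), max_eq_right (sub_nonpos.mpr k2)]
    have := cl_s2h00 (w := w) (A := A) (B := B) (y := 1 - x) (E := E) (e := F - 13 / 10) (d := d)
      hE he hy ht ht2 hx hd hd2 hd3 hw hA hB hw1 hT hT2 (by linarith only [k1]) (by linarith only [k2]) n1 n3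
    exact sub_nonneg.1 (this.trans_eq (by ring))
  · rw [max_eq_right (sub_nonpos.mpr k1), max_eq_left (sub_nonneg.mpr k2)]
    have := cl_s2h01 (w := w) (A := A) (B := B) (y := 1 - x) (E := E) (e := F - 13 / 10) (d := d)
      hE he hy ht ht2 hx hd hd2 hd3 hw hA hB hw1 hT hT2 (by linarith only [k1]) (sub_nonneg.mpr k2) n1 n3
    exact sub_nonneg.1 (this.trans_eq (by ring))
  · rw [max_eq_left (sub_nonneg.mpr k1), max_eq_right (sub_nonpos.mpr k2)]
    have := cl_s2h10 (w := w) (A := A) (B := B) (y := 1 - x) (E := E) (e := F - 13 / 10) (d := d)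
      hE he hy ht ht2 hx hd hd2 hd3 hw hA hB hw1 hT hT2 (sub_nonneg.mpr k1) (by linarith only [k2]) n1 n3
    exact sub_nonneg.1 (this.trans_eq (by ring))
  · rw [max_eq_left (sub_nonneg.mpr k1), max_eq_left (sub_nonneg.mpr k2)]
    have := cl_s2h11 (w := w) (A := A) (B := B) (y := 1 - x) (E := E) (e := F - 13 / 10) (d := d)
      hE he hy ht ht2 hx hd hd2 hd3 hw hA hB hw1 hT hT2 (sub_nonneg.mpr k1) (sub_nonneg.mpr k2) n1 n3
    exact sub_nonneg.1 (this.trans_eq (by ring))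

theorem f_s3i (q : CD w A B x E F d) (m1 : w + E ≤ 1) (m2 : B ≤ 1) (m3 : B ≤ x) :
    vl w A B + vl x E F + ((1 - B) * (1 - x) - (1 - x) ^ 3 / 3) ≤
      hh1 (A + B - w) + hh2 (E + F - x) + 507 / 1000 * d := by
  obtain ⟨hE, he, hy, ht, ht2, hx, hd, hd2, hd3, hw, hA, hB, hw1, hT, hT2⟩ := cc32 q
  have hD := vlD32 q
  have n1 : 0 ≤ 1 - w - E := by linarith only [m1]
  have n2 : 0 ≤ 1 - B := by linarith only [m2]
  have n3 : 0 ≤ 1 - B - (1 - x) := by linarith only [m3]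
  rw [hD]
  unfold vl hh1 hh2
  rcases le_total w A with k1 | k1 <;> rcases le_total w B with k2 | k2
  · rw [max_eq_right (sub_nonpos.mpr k1), max_eq_right (sub_nonpos.mpr k2)]
    have := cl_s3i00 (w := w) (A := A) (B := B) (y := 1 - x) (E := E) (e := F - 13 / 10) (d := d)
      hE he hy ht ht2 hx hd hd2 hd3 hw hA hB hw1 hT hT2 (by linarith only [k1]) (by linarith only [k2]) n1 n2 n3
    exact sub_nonneg.1 (this.trans_eq (by ring))
  · rw [max_eq_right (sub_nonpos.mpr k1), max_eq_left (sub_nonneg.mpr k2)]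
    have := cl_s3i01 (w := w) (A := A) (B := B) (y := 1 - x) (E := E) (e := F - 13 / 10) (d := d)
      hE he hy ht ht2 hx hd hd2 hd3 hw hA hB hw1 hT hT2 (by linarith only [k1]) (sub_nonneg.mpr k2) n1 n2 n3
    exact sub_nonneg.1 (this.trans_eq (by ring))
  · rw [max_eq_left (sub_nonneg.mpr k1), max_eq_right (sub_nonpos.mpr k2)]
    have := cl_s3i10 (w := w) (A := A) (B := B) (y := 1 - x) (E := E) (e := F - 13 / 10) (d := d)
      hE he hy ht ht2 hx hd hd2 hd3 hw hA hB hw1 hT hT2 (sub_nonneg.mpr k1) (by linarith only [k2]) n1 n2 n3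
    exact sub_nonneg.1 (this.trans_eq (by ring))
  · rw [max_eq_left (sub_nonneg.mpr k1), max_eq_left (sub_nonneg.mpr k2)]
    have := cl_s3i11 (w := w) (A := A) (B := B) (y := 1 - x) (E := E) (e := F - 13 / 10) (d := d)
      hE he hy ht ht2 hx hd hd2 hd3 hw hA hB hw1 hT hT2 (sub_nonneg.mpr k1) (sub_nonneg.mpr k2) n1 n2 n3
    exact sub_nonneg.1 (this.trans_eq (by ring))

theorem f_s3v (q : CD w A B x E F d) (m1 : w + E ≤ 1) (m2 : B ≤ 1) (m3 : x ≤ B) (m4 : 2 * (1 - x) ≤ 1 + (1 - B)) :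
    vl w A B + vl x E F + ((1 - B) * (1 - x) * (1 + (1 - B) - (1 - x)) - (1 - B) ^ 3 / 3) ≤
      hh1 (A + B - w) + hh2 (E + F - x) + 507 / 1000 * d := by
  obtain ⟨hE, he, hy, ht, ht2, hx, hd, hd2, hd3, hw, hA, hB, hw1, hT, hT2⟩ := cc32 q
  have hD := vlD32 q
  have n1 : 0 ≤ 1 - w - E := by linarith only [m1]
  have n2 : 0 ≤ 1 - B := by linarith only [m2]
  have n3 : 0 ≤ -1 + B + (1 - x) := by linarith only [m3]
  have n4 : 0 ≤ 2 - B - 2 * (1 - x) := by linarith only [m4]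
  rw [hD]
  unfold vl hh1 hh2
  rcases le_total w A with k1 | k1 <;> rcases le_total w B with k2 | k2
  · rw [max_eq_right (sub_nonpos.mpr k1), max_eq_right (sub_nonpos.mpr k2)]
    have := cl_s3v00 (w := w) (A := A) (B := B) (y := 1 - x) (E := E) (e := F - 13 / 10) (d := d)
      hE he hy ht ht2 hx hd hd2 hd3 hw hA hB hw1 hT hT2 (by linarith only [k1]) (by linarith only [k2]) n1 n2 n3 n4
    exact sub_nonneg.1 (this.trans_eq (by ring))
  · rw [max_eq_right (sub_nonpos.mpr k1), max_eq_left (sub_nonneg.mpr k2)]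
    have := cl_s3v01 (w := w) (A := A) (B := B) (y := 1 - x) (E := E) (e := F - 13 / 10) (d := d)
      hE he hy ht ht2 hx hd hd2 hd3 hw hA hB hw1 hT hT2 (by linarith only [k1]) (sub_nonneg.mpr k2) n1 n2 n3 n4
    exact sub_nonneg.1 (this.trans_eq (by ring))
  · rw [max_eq_left (sub_nonneg.mpr k1), max_eq_right (sub_nonpos.mpr k2)]
    have := cl_s3v10 (w := w) (A := A) (B := B) (y := 1 - x) (E := E) (e := F - 13 / 10) (d := d)
      hE he hy ht ht2 hx hd hd2 hd3 hw hA hB hw1 hT hT2 (sub_nonneg.mpr k1) (by linarith only [k2]) n1 n2 n3 n4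
    exact sub_nonneg.1 (this.trans_eq (by ring))
  · rw [max_eq_left (sub_nonneg.mpr k1), max_eq_left (sub_nonneg.mpr k2)]
    have := cl_s3v11 (w := w) (A := A) (B := B) (y := 1 - x) (E := E) (e := F - 13 / 10) (d := d)
      hE he hy ht ht2 hx hd hd2 hd3 hw hA hB hw1 hT hT2 (sub_nonneg.mpr k1) (sub_nonneg.mpr k2) n1 n2 n3 n4
    exact sub_nonneg.1 (this.trans_eq (by ring))

theorem f_s3x (q : CD w A B x E F d) (m1 : w + E ≤ 1) (m2 : B ≤ 1) (m3 : x ≤ B) (m4 : 1 + (1 - B) ≤ 2 * (1 - x)) :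
    vl w A B + vl x E F + ((1 - B) * (1 + (1 - B)) ^ 2 / 4 - (1 - B) ^ 3 / 3) ≤
      hh1 (A + B - w) + hh2 (E + F - x) + 507 / 1000 * d := by
  obtain ⟨hE, he, hy, ht, ht2, hx, hd, hd2, hd3, hw, hA, hB, hw1, hT, hT2⟩ := cc32 q
  have hD := vlD32 q
  have n1 : 0 ≤ 1 - w - E := by linarith only [m1]
  have n2 : 0 ≤ 1 - B := by linarith only [m2]
  have n3 : 0 ≤ -1 + B + (1 - x) := by linarith only [m3]
  have n4 : 0 ≤ -2 + B + 2 * (1 - x) := by linarith only [m4]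
  rw [hD]
  unfold vl hh1 hh2
  rcases le_total w A with k1 | k1 <;> rcases le_total w B with k2 | k2
  · rw [max_eq_right (sub_nonpos.mpr k1), max_eq_right (sub_nonpos.mpr k2)]
    have := cl_s3x00 (w := w) (A := A) (B := B) (y := 1 - x) (E := E) (e := F - 13 / 10) (d := d)
      hE he hy ht ht2 hx hd hd2 hd3 hw hA hB hw1 hT hT2 (by linarith only [k1]) (by linarith only [k2]) n1 n2 n3 n4
    exact sub_nonneg.1 (this.trans_eq (by ring))
  · rw [max_eq_right (sub_nonpos.mpr k1), max_eq_left (sub_nonneg.mpr k2)]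
    have := cl_s3x01 (w := w) (A := A) (B := B) (y := 1 - x) (E := E) (e := F - 13 / 10) (d := d)
      hE he hy ht ht2 hx hd hd2 hd3 hw hA hB hw1 hT hT2 (by linarith only [k1]) (sub_nonneg.mpr k2) n1 n2 n3 n4
    exact sub_nonneg.1 (this.trans_eq (by ring))
  · rw [max_eq_left (sub_nonneg.mpr k1), max_eq_right (sub_nonpos.mpr k2)]
    have := cl_s3x10 (w := w) (A := A) (B := B) (y := 1 - x) (E := E) (e := F - 13 / 10) (d := d)
      hE he hy ht ht2 hx hd hd2 hd3 hw hA hB hw1 hT hT2 (sub_nonneg.mpr k1) (by linarith only [k2]) n1 n2 n3 n4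
    exact sub_nonneg.1 (this.trans_eq (by ring))
  · rw [max_eq_left (sub_nonneg.mpr k1), max_eq_left (sub_nonneg.mpr k2)]
    have := cl_s3x11 (w := w) (A := A) (B := B) (y := 1 - x) (E := E) (e := F - 13 / 10) (d := d)
      hE he hy ht ht2 hx hd hd2 hd3 hw hA hB hw1 hT hT2 (sub_nonneg.mpr k1) (sub_nonneg.mpr k2) n1 n2 n3 n4
    exact sub_nonneg.1 (this.trans_eq (by ring))

theorem f_s4g (q : CD w A B x E F d) (m1 : x + A ≤ 1) (m3 : w ≤ x) :
    vl w A B + vl x E F + ((1 - x) * ((1 - x) + (1 - w)) ^ 2 / 4 - (1 - x) ^ 3 / 3) ≤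
      hh1 (A + B - w) + hh2 (E + F - x) + 507 / 1000 * d := by
  obtain ⟨hE, he, hy, ht, ht2, hx, hd, hd2, hd3, hw, hA, hB, hw1, hT, hT2⟩ := cc32 q
  have hD := vlD32 q
  have n1 : 0 ≤ -A + (1 - x) := by linarith only [m1]
  have n3 : 0 ≤ 1 - w - (1 - x) := by linarith only [m3]
  rw [hD]
  unfold vl hh1 hh2
  rcases le_total w A with k1 | k1 <;> rcases le_total w B with k2 | k2
  · rw [max_eq_right (sub_nonpos.mpr k1), max_eq_right (sub_nonpos.mpr k2)]
    have := cl_s4g00 (w := w) (A := A) (B := B) (y := 1 - x) (E := E) (e := F - 13 / 10) (d := d)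
      hE he hy ht ht2 hx hd hd2 hd3 hw hA hB hw1 hT hT2 (by linarith only [k1]) (by linarith only [k2]) n1 n3
    exact sub_nonneg.1 (this.trans_eq (by ring))
  · rw [max_eq_right (sub_nonpos.mpr k1), max_eq_left (sub_nonneg.mpr k2)]
    have := cl_s4g01 (w := w) (A := A) (B := B) (y := 1 - x) (E := E) (e := F - 13 / 10) (d := d)
      hE he hy ht ht2 hx hd hd2 hd3 hw hA hB hw1 hT hT2 (by linarith only [k1]) (sub_nonneg.mpr k2) n1 n3
    exact sub_nonneg.1 (this.trans_eq (by ring))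
  · rw [max_eq_left (sub_nonneg.mpr k1), max_eq_right (sub_nonpos.mpr k2)]
    have := cl_s4g10 (w := w) (A := A) (B := B) (y := 1 - x) (E := E) (e := F - 13 / 10) (d := d)
      hE he hy ht ht2 hx hd hd2 hd3 hw hA hB hw1 hT hT2 (sub_nonneg.mpr k1) (by linarith only [k2]) n1 n3
    exact sub_nonneg.1 (this.trans_eq (by ring))
  · rw [max_eq_left (sub_nonneg.mpr k1), max_eq_left (sub_nonneg.mpr k2)]
    have := cl_s4g11 (w := w) (A := A) (B := B) (y := 1 - x) (E := E) (e := F - 13 / 10) (d := d)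
      hE he hy ht ht2 hx hd hd2 hd3 hw hA hB hw1 hT hT2 (sub_nonneg.mpr k1) (sub_nonneg.mpr k2) n1 n3
    exact sub_nonneg.1 (this.trans_eq (by ring))

theorem f_s4h (q : CD w A B x E F d) (m1 : x + A ≤ 1) (m3 : x ≤ w) :
    vl w A B + vl x E F + ((1 - w) * ((1 - w) + (1 - x)) ^ 2 / 4 - (1 - w) ^ 3 / 3) ≤
      hh1 (A + B - w) + hh2 (E + F - x) + 507 / 1000 * d := by
  obtain ⟨hE, he, hy, ht, ht2, hx, hd, hd2, hd3, hw, hA, hB, hw1, hT, hT2⟩ := cc32 q
  have hD := vlD32 q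
  have n1 : 0 ≤ -A + (1 - x) := by linarith only [m1]
  have n3 : 0 ≤ -1 + w + (1 - x) := by linarith only [m3]
  rw [hD]
  unfold vl hh1 hh2
  rcases le_total w A with k1 | k1 <;> rcases le_total w B with k2 | k2
  · rw [max_eq_right (sub_nonpos.mpr k1), max_eq_right (sub_nonpos.mpr k2)]
    have := cl_s4h00 (w := w) (A := A) (B := B) (y := 1 - x) (E := E) (e := F - 13 / 10) (d := d)
      hE he hy ht ht2 hx hd hd2 hd3 hw hA hB hw1 hT hT2 (by linarith only [k1]) (by linarith only [k2]) n1 n3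
    exact sub_nonneg.1 (this.trans_eq (by ring))
  · rw [max_eq_right (sub_nonpos.mpr k1), max_eq_left (sub_nonneg.mpr k2)]
    have := cl_s4h01 (w := w) (A := A) (B := B) (y := 1 - x) (E := E) (e := F - 13 / 10) (d := d)
      hE he hy ht ht2 hx hd hd2 hd3 hw hA hB hw1 hT hT2 (by linarith only [k1]) (sub_nonneg.mpr k2) n1 n3
    exact sub_nonneg.1 (this.trans_eq (by ring))
  · rw [max_eq_left (sub_nonneg.mpr k1), max_eq_right (sub_nonpos.mpr k2)]
    have := cl_s4h10 (w := w) (A := A) (B := B) (y := 1 - x) (E := E) (e := F - 13 / 10) (d := d)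
      hE he hy ht ht2 hx hd hd2 hd3 hw hA hB hw1 hT hT2 (sub_nonneg.mpr k1) (by linarith only [k2]) n1 n3
    exact sub_nonneg.1 (this.trans_eq (by ring))
  · rw [max_eq_left (sub_nonneg.mpr k1), max_eq_left (sub_nonneg.mpr k2)]
    have := cl_s4h11 (w := w) (A := A) (B := B) (y := 1 - x) (E := E) (e := F - 13 / 10) (d := d)
      hE he hy ht ht2 hx hd hd2 hd3 hw hA hB hw1 hT hT2 (sub_nonneg.mpr k1) (sub_nonneg.mpr k2) n1 n3
    exact sub_nonneg.1 (this.trans_eq (by ring))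

theorem f_s5i (q : CD w A B x E F d) (m1 : x + A ≤ 1) (m2 : B ≤ 1) (m3 : B ≤ x) :
    vl w A B + vl x E F + ((1 - B) * (1 - x) - (1 - x) ^ 3 / 3) ≤
      hh1 (A + B - w) + hh2 (E + F - x) + 507 / 1000 * d := by
  obtain ⟨hE, he, hy, ht, ht2, hx, hd, hd2, hd3, hw, hA, hB, hw1, hT, hT2⟩ := cc32 q
  have hD := vlD32 q
  have n1 : 0 ≤ -A + (1 - x) := by linarith only [m1]
  have n2 : 0 ≤ 1 - B := by linarith only [m2]
  have n3 : 0 ≤ 1 - B - (1 - x) := by linarith only [m3]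
  rw [hD]
  unfold vl hh1 hh2
  rcases le_total w A with k1 | k1 <;> rcases le_total w B with k2 | k2
  · rw [max_eq_right (sub_nonpos.mpr k1), max_eq_right (sub_nonpos.mpr k2)]
    have := cl_s5i00 (w := w) (A := A) (B := B) (y := 1 - x) (E := E) (e := F - 13 / 10) (d := d)
      hE he hy ht ht2 hx hd hd2 hd3 hw hA hB hw1 hT hT2 (by linarith only [k1]) (by linarith only [k2]) n1 n2 n3
    exact sub_nonneg.1 (this.trans_eq (by ring))
  · rw [max_eq_right (sub_nonpos.mpr k1), max_eq_left (sub_nonneg.mpr k2)]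
    have := cl_s5i01 (w := w) (A := A) (B := B) (y := 1 - x) (E := E) (e := F - 13 / 10) (d := d)
      hE he hy ht ht2 hx hd hd2 hd3 hw hA hB hw1 hT hT2 (by linarith only [k1]) (sub_nonneg.mpr k2) n1 n2 n3
    exact sub_nonneg.1 (this.trans_eq (by ring))
  · rw [max_eq_left (sub_nonneg.mpr k1), max_eq_right (sub_nonpos.mpr k2)]
    have := cl_s5i10 (w := w) (A := A) (B := B) (y := 1 - x) (E := E) (e := F - 13 / 10) (d := d)
      hE he hy ht ht2 hx hd hd2 hd3 hw hA hB hw1 hT hT2 (sub_nonneg.mpr k1) (by linarith only [k2]) n1 n2 n3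
    exact sub_nonneg.1 (this.trans_eq (by ring))
  · rw [max_eq_left (sub_nonneg.mpr k1), max_eq_left (sub_nonneg.mpr k2)]
    have := cl_s5i11 (w := w) (A := A) (B := B) (y := 1 - x) (E := E) (e := F - 13 / 10) (d := d)
      hE he hy ht ht2 hx hd hd2 hd3 hw hA hB hw1 hT hT2 (sub_nonneg.mpr k1) (sub_nonneg.mpr k2) n1 n2 n3
    exact sub_nonneg.1 (this.trans_eq (by ring))

theorem f_s5x (q : CD w A B x E F d) (m1 : x + A ≤ 1) (m2 : B ≤ 1) (m3 : x ≤ B) :
    vl w A B + vl x E F + ((1 - B) * (1 + (1 - B)) ^ 2 / 4 - (1 - B) ^ 3 / 3) ≤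
      hh1 (A + B - w) + hh2 (E + F - x) + 507 / 1000 * d := by
  obtain ⟨hE, he, hy, ht, ht2, hx, hd, hd2, hd3, hw, hA, hB, hw1, hT, hT2⟩ := cc32 q
  have hD := vlD32 q
  have n1 : 0 ≤ -A + (1 - x) := by linarith only [m1]
  have n2 : 0 ≤ 1 - B := by linarith only [m2]
  have n3 : 0 ≤ -1 + B + (1 - x) := by linarith only [m3]
  rw [hD]
  unfold vl hh1 hh2
  rcases le_total w A with k1 | k1 <;> rcases le_total w B with k2 | k2
  · rw [max_eq_right (sub_nonpos.mpr k1), max_eq_right (sub_nonpos.mpr k2)]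
    have := cl_s5x00 (w := w) (A := A) (B := B) (y := 1 - x) (E := E) (e := F - 13 / 10) (d := d)
      hE he hy ht ht2 hx hd hd2 hd3 hw hA hB hw1 hT hT2 (by linarith only [k1]) (by linarith only [k2]) n1 n2 n3
    exact sub_nonneg.1 (this.trans_eq (by ring))
  · rw [max_eq_right (sub_nonpos.mpr k1), max_eq_left (sub_nonneg.mpr k2)]
    have := cl_s5x01 (w := w) (A := A) (B := B) (y := 1 - x) (E := E) (e := F - 13 / 10) (d := d)
      hE he hy ht ht2 hx hd hd2 hd3 hw hA hB hw1 hT hT2 (by linarith only [k1]) (sub_nonneg.mpr k2) n1 n2 n3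
    exact sub_nonneg.1 (this.trans_eq (by ring))
  · rw [max_eq_left (sub_nonneg.mpr k1), max_eq_right (sub_nonpos.mpr k2)]
    have := cl_s5x10 (w := w) (A := A) (B := B) (y := 1 - x) (E := E) (e := F - 13 / 10) (d := d)
      hE he hy ht ht2 hx hd hd2 hd3 hw hA hB hw1 hT hT2 (sub_nonneg.mpr k1) (by linarith only [k2]) n1 n2 n3
    exact sub_nonneg.1 (this.trans_eq (by ring))
  · rw [max_eq_left (sub_nonneg.mpr k1), max_eq_left (sub_nonneg.mpr k2)]
    have := cl_s5x11 (w := w) (A := A) (B := B) (y := 1 - x) (E := E) (e := F - 13 / 10) (d := d)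
      hE he hy ht ht2 hx hd hd2 hd3 hw hA hB hw1 hT hT2 (sub_nonneg.mpr k1) (sub_nonneg.mpr k2) n1 n2 n3
    exact sub_nonneg.1 (this.trans_eq (by ring))

theorem f_smm (q : CD w A B x E F d) (m1 : w + x ≤ 1) :
    vl w A B + vl x E F + (11 / 25 * (1 - x - w) + (1 - x - w) ^ 2 / 2) ≤
      hh1 (A + B - w) + hh2 (E + F - x) + 507 / 1000 * d := by
  obtain ⟨hE, he, hy, ht, ht2, hx, hd, hd2, hd3, hw, hA, hB, hw1, hT, hT2⟩ := cc32 q
  have hD := vlD32 q
  have n1 : 0 ≤ -w + (1 - x) := by linarith only [m1]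
  rw [hD]
  unfold vl hh1 hh2
  rcases le_total w A with k1 | k1 <;> rcases le_total w B with k2 | k2
  · rw [max_eq_right (sub_nonpos.mpr k1), max_eq_right (sub_nonpos.mpr k2)]
    have := cl_smm00 (w := w) (A := A) (B := B) (y := 1 - x) (E := E) (e := F - 13 / 10) (d := d)
      hE he hy ht ht2 hx hd hd2 hd3 hw hA hB hw1 hT hT2 (by linarith only [k1]) (by linarith only [k2]) n1
    exact sub_nonneg.1 (this.trans_eq (by ring))
  · rw [max_eq_right (sub_nonpos.mpr k1), max_eq_left (sub_nonneg.mpr k2)]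
    have := cl_smm01 (w := w) (A := A) (B := B) (y := 1 - x) (E := E) (e := F - 13 / 10) (d := d)
      hE he hy ht ht2 hx hd hd2 hd3 hw hA hB hw1 hT hT2 (by linarith only [k1]) (sub_nonneg.mpr k2) n1
    exact sub_nonneg.1 (this.trans_eq (by ring))
  · rw [max_eq_left (sub_nonneg.mpr k1), max_eq_right (sub_nonpos.mpr k2)]
    have := cl_smm10 (w := w) (A := A) (B := B) (y := 1 - x) (E := E) (e := F - 13 / 10) (d := d)
      hE he hy ht ht2 hx hd hd2 hd3 hw hA hB hw1 hT hT2 (sub_nonneg.mpr k1) (by linarith only [k2]) n1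
    exact sub_nonneg.1 (this.trans_eq (by ring))
  · rw [max_eq_left (sub_nonneg.mpr k1), max_eq_left (sub_nonneg.mpr k2)]
    have := cl_smm11 (w := w) (A := A) (B := B) (y := 1 - x) (E := E) (e := F - 13 / 10) (d := d)
      hE he hy ht ht2 hx hd hd2 hd3 hw hA hB hw1 hT hT2 (sub_nonneg.mpr k1) (sub_nonneg.mpr k2) n1
    exact sub_nonneg.1 (this.trans_eq (by ring))

end

end Pool.Agent.Helper32.TS
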