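import Pool.Agent.Helper83.Cert.Check

/-!
# Twelve variables for the certificate checker
-/

set_option autoImplicit false

namespace Pool.Agent.Helper32.TS

open Pool.Agent.Helper83.Cert

/-- the values of the variables `v 2, v 3, v 5, ..., v 37` -/
noncomputable def yw (a b c d e f g h i j k l : ℝ) (n : ℕ) : ℝ :=
  if n = 2 then a else if n = 3 then b else if n = 5 then c else if n = 7 then d else
  if n = 11 then e else if n = 13 then f else if n = 17 then g else if n = 19 then h else
  if n = 23 then i else if n = 29 then j else if n = 31 then k else if n = 37 then l else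
  0

theorem ite0 {p : Prop} [Decidable p] {a b : ℝ} (ha : 0 ≤ a) (hb : 0 ≤ b) :
    0 ≤ (if p then a else b) := by
  by_cases h : p
  · rwa [if_pos h]
  · rwa [if_neg h]

theorem yw_nonneg {a b c d e f g h i j k l : ℝ} (ha : 0 ≤ a) (hb : 0 ≤ b) (hc : 0 ≤ c) (hd : 0 ≤ d)
    (he : 0 ≤ e) (hf : 0 ≤ f) (hg : 0 ≤ g) (hh : 0 ≤ h) (hi : 0 ≤ i) (hj : 0 ≤ j) (hk : 0 ≤ k)
    (hl : 0 ≤ l) (n : ℕ) : 0 ≤ yw a b c d e f g h i j k l n :=
  ite0 ha (ite0 hb (ite0 hc (ite0 hd (ite0 he (ite0 hf (ite0 hg (ite0 hh (ite0 hi (ite0 hj (ite0 hk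
    (ite0 hl le_rfl)))))))))))

section

variable (a b c d e f g h i j k l : ℝ)

theorem ew2 : exVal (yw a b c d e f g h i j k l) (Ex.v 2) = a := by
  rw [exVal, evM_prime _ (by norm_num)]; rfl

theorem ew3 : exVal (yw a b c d e f g h i j k l) (Ex.v 3) = b := by
  rw [exVal, evM_prime _ (by norm_num)]; rfl

theorem ew5 : exVal (yw a b c d e f g h i j k l) (Ex.v 5) = c := by
  rw [exVal, evM_prime _ (by norm_num)]; rfl

theorem ew7 : exVal (yw a b c d e f g h i j k l) (Ex.v 7) = d := by
  rw [exVal, evM_prime _ (by norm_num)]; rfl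

theorem ew11 : exVal (yw a b c d e f g h i j k l) (Ex.v 11) = e := by
  rw [exVal, evM_prime _ (by norm_num)]; rfl

theorem ew13 : exVal (yw a b c d e f g h i j k l) (Ex.v 13) = f := by
  rw [exVal, evM_prime _ (by norm_num)]; rfl

theorem ew17 : exVal (yw a b c d e f g h i j k l) (Ex.v 17) = g := by
  rw [exVal, evM_prime _ (by norm_num)]; rfl

theorem ew19 : exVal (yw a b c d e f g h i j k l) (Ex.v 19) = h := by
  rw [exVal, evM_prime _ (by norm_num)]; rfl

theorem ew23 : exVal (yw a b c d e f g h i j k l) (Ex.v 23) = i := by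
  rw [exVal, evM_prime _ (by norm_num)]; rfl

theorem ew29 : exVal (yw a b c d e f g h i j k l) (Ex.v 29) = j := by
  rw [exVal, evM_prime _ (by norm_num)]; rfl

theorem ew31 : exVal (yw a b c d e f g h i j k l) (Ex.v 31) = k := by
  rw [exVal, evM_prime _ (by norm_num)]; rfl

theorem ew37 : exVal (yw a b c d e f g h i j k l) (Ex.v 37) = l := by
  rw [exVal, evM_prime _ (by norm_num)]; rfl

end

end Pool.Agent.Helper32.TS
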